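import Pool.Agent.K3h63.PD.Conc
import Pool.Agent.R905.Div

/-!
# Kimura finite-dimensionality descends along exterior and symmetric powers: pure objects
-/

set_option autoImplicit false
set_option linter.unusedSectionVars false
set_option linter.unusedSimpArgs false
set_option backward.isDefEq.respectTransparency false
set_option backward.defeqAttrib.useBackward true

open CategoryTheory Limits MonoidalCategory
open Pool.Agent.Y112.SR Pool.Agent.Y112.KD Pool.Agent.Y112.SC Pool.Agent.R905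

namespace Pool.Agent.K3h63.PD

universe v u w

section

variable {C : Type u} [Category.{v} C] [Preadditive C] [Linear ℚ C] [MonoidalCategory C]
  [MonoidalPreadditive C] [MonoidalLinear ℚ C] [SymmetricCategory C]

/-- The symmetrizers are combinations of permutations. -/
lemma asym_adjoin (η : ℚ) (X : C) (n : ℕ) : (asym η X n : End (tp X n)) ∈
    Algebra.adjoin ℚ {s : End (tp X n) | IsSwap X n s} := by
  induction n with
  | zero => exact one_mem _
  | succ n ih =>
    rcases n with - | n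
    · exact one_mem _
    · have h1 : (wr X (n + 1) (asym η X (n + 1)) : End (tp X (n + 2))) ∈
          Algebra.adjoin ℚ {s : End (tp X (n + 2)) | IsSwap X (n + 2) s} := by
        have h2 : (Algebra.adjoin ℚ {s : End (tp X (n + 1)) | IsSwap X (n + 1) s}).map
            (wr X (n + 1)) ≤ Algebra.adjoin ℚ {s : End (tp X (n + 2)) | IsSwap X (n + 2) s} := by
          rw [AlgHom.map_adjoin]
          apply Algebra.adjoin_mono
          rintro _ ⟨s, hs, rfl⟩
          exact IsSwap.lift _ _ hs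
        exact h2 ⟨_, ih, rfl⟩
      have h3 : (sw (tp X n) X : End (tp X (n + 2))) ∈
          Algebra.adjoin ℚ {s : End (tp X (n + 2)) | IsSwap X (n + 2) s} :=
        Algebra.subset_adjoin (IsSwap.last n)
      exact Subalgebra.smul_mem _ (Subalgebra.add_mem _ h1 (Subalgebra.smul_mem _
        (Subalgebra.mul_mem _ (Subalgebra.mul_mem _ h1 h3) h1) _)) _

/-- An object with a vanishing exterior or symmetric power is Kimura finite. -/
lemma kf_of_asym {X : C} {η : ℚ} (hη : η = 1 ∨ η = -1) {n : ℕ} (h : asym η X n = 0) :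
    IsKimuraFinite X := by
  have h0 : ∀ θ : ℚ, PowerVanishes θ (0 : X ⟶ X) 1 := by
    intro θ Z g _
    have e1 : tpm (0 : X ⟶ X) 1 = tpm (0 : X ⟶ X) 0 ⊗ₘ (0 : X ⟶ X) := rfl
    rw [e1, MonoidalCategory.tensorHom_def, MonoidalPreadditive.whiskerLeft_zero, comp_zero,
      zero_comp]
  rcases hη with rfl | rfl
  · refine ⟨0, by simp, ⟨1, h0 _⟩, n, ?_⟩
    rw [sub_zero]
    exact (powerVanishes_iff (by norm_num) (𝟙 X) (𝟙 X) (by simp) (by simp) n).2 h
  · refine ⟨𝟙 X, by simp, ⟨n, ?_⟩, 1, ?_⟩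
    · exact (powerVanishes_iff (by norm_num) (𝟙 X) (𝟙 X) (by simp) (by simp) n).2 h
    · rw [sub_self]
      exact h0 _

variable [RightRigidCategory C] [IsIdempotentComplete C] {K : Type w} [Field K]
  (R : SuperRealisation C K)

/-- The parity of a tensor power. -/
lemma par_tp {X : C} {d : K} (hX : R.par X = d • 𝟙 _) (n : ℕ) :
    R.par (tp X n) = (d ^ n) • 𝟙 _ := by
  induction n with
  | zero =>
    rw [pow_zero, one_smul]
    exact R.par_unit
  | succ n ih =>
    rw [pow_succ]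
    exact par_tensor_eq R ih hX

/-- The parity of a direct summand. -/
lemma par_summand {X P : C} {c : K} (hX : R.par X = c • 𝟙 _) (i : P ⟶ X) (r : X ⟶ P)
    (h : i ≫ r = 𝟙 P) : R.par P = c • 𝟙 _ := by
  have e1 : R.H.map i ≫ R.par X ≫ R.H.map r = R.par P := by
    rw [← Category.assoc, R.par_natural, Category.assoc, ← Functor.map_comp, h]
    simp
  rw [← e1, hX]
  simp only [Linear.smul_comp, Linear.comp_smul, Category.id_comp]
  rw [← Functor.map_comp, h]
  simp

lemma isZero_iff_map {P : C} : IsZero (R.H.obj P) ↔ R.H.map (𝟙 P) = 0 := by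
  rw [IsZero.iff_id_eq_zero, CategoryTheory.Functor.map_id]

lemma isZero_tensor_left {P Q : C} (h : IsZero (R.H.obj P)) : IsZero (R.H.obj (P ⊗ Q)) := by
  rw [isZero_iff_map] at h ⊢
  rw [← id_whiskerRight, map_whiskerRight_eq, h, bx_zero_left]

lemma isZero_of_iso {P Q : C} (e : P ≅ Q) (h : IsZero (R.H.obj P)) : IsZero (R.H.obj Q) :=
  h.of_iso (R.H.mapIso e).symm

lemma isZero_tensor_right {P Q : C} (h : IsZero (R.H.obj Q)) : IsZero (R.H.obj (P ⊗ Q)) :=
  isZero_of_iso R (β_ Q P) (isZero_tensor_left R h)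

lemma isZero_retract {P Q : C} (i : P ⟶ Q) (r : Q ⟶ P) (h : i ≫ r = 𝟙 P)
    (hQ : IsZero (R.H.obj Q)) : IsZero (R.H.obj P) := by
  rw [isZero_iff_map, ← h, Functor.map_comp, hQ.eq_of_tgt (R.H.map i) 0, zero_comp]

end

section

variable {C : Type u} [Category.{v} C] [Preadditive C] [Linear ℚ C] [MonoidalCategory C]
  [MonoidalPreadditive C] [MonoidalLinear ℚ C] [SymmetricCategory C]
  [RightRigidCategory C] {K : Type w} [Field K] {R : SuperRealisation C K}

lemma Dn_const {X : C} (f : X ⟶ X) (n : ℕ) : Dn n (fun _ => f) = tpm f n := by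
  induction n with
  | zero => rfl
  | succ n ih => rw [Dn_succ, ih]; rfl

lemma map_tpm_zero {X : C} {f : X ⟶ X} (hf : R.H.map f = 0) (n : ℕ) :
    R.H.map (tpm f (n + 1)) = 0 := by
  have e1 : tpm f (n + 1) = tpm f n ▷ X ≫ (tp X n) ◁ f := MonoidalCategory.tensorHom_def _ _
  have e2 : R.H.map ((tp X n) ◁ f) = 0 := by
    have e3 : (tp X n) ◁ f = (β_ (tp X n) X).hom ≫ f ▷ tp X n ≫ (β_ X (tp X n)).hom := by
      simp
    rw [e3, Functor.map_comp, Functor.map_comp, map_whiskerRight_eq, hf, bx_zero_left]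
    simp
  rw [e1, Functor.map_comp, e2, comp_zero]

/-- Nilpotence descends along exterior and symmetric powers. -/
theorem homNil_of_power (hU : UnitQ C) {η : ℚ} (hη : η * η = 1) {M P : C} (n : ℕ)
    (i : P ⟶ tp M (n + 1)) (r : tp M (n + 1) ⟶ P) (hir : i ≫ r = 𝟙 P)
    (hri : r ≫ i = asym η M (n + 1)) (hP : HomNil R P) : HomNil R M := by
  intro f hf
  have hg : R.H.map (i ≫ tpm (mo f) (n + 1) ≫ r) = 0 := by
    rw [Functor.map_comp, Functor.map_comp, map_tpm_zero hf n]
    simp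
  obtain ⟨k, hk⟩ := hP (i ≫ tpm (mo f) (n + 1) ≫ r) hg
  have hcomm : ∀ g : M ⟶ M, (r ≫ i) ≫ tpm g (n + 1) = tpm g (n + 1) ≫ (r ≫ i) := fun g => by
    rw [hri, asym_nat]
  have key : ∀ k : ℕ, (show End P from i ≫ tpm (mo f) (n + 1) ≫ r) ^ k =
      i ≫ tpm (mo (f ^ k)) (n + 1) ≫ r := by
    intro k
    induction k with
    | zero =>
      have e1 : tpm (mo (f ^ 0)) (n + 1) = 𝟙 _ := by
        rw [pow_zero]
        exact tpm_id M (n + 1)
      rw [e1, Category.id_comp, hir, pow_zero]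
      rfl
    | succ k ih =>
      rw [pow_succ, ih]
      change (i ≫ tpm (mo f) (n + 1) ≫ r) ≫ (i ≫ tpm (mo (f ^ k)) (n + 1) ≫ r) = _
      have e1 : tpm (mo (f ^ (k + 1))) (n + 1) = tpm (mo f) (n + 1) ≫ tpm (mo (f ^ k)) (n + 1) := by
        rw [tpm_comp, pow_succ]
        rfl
      rw [e1]
      calc (i ≫ tpm (mo f) (n + 1) ≫ r) ≫ i ≫ tpm (mo (f ^ k)) (n + 1) ≫ r
          = i ≫ tpm (mo f) (n + 1) ≫ ((r ≫ i) ≫ tpm (mo (f ^ k)) (n + 1)) ≫ r := by
            simp only [Category.assoc]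
        _ = _ := by
            rw [hcomm]
            simp only [Category.assoc, hir, Category.comp_id]
  have h1 : i ≫ tpm (mo (f ^ k)) (n + 1) ≫ r = 0 := by
    rw [← key k]
    exact hk
  have h2 : tpm (mo (f ^ k)) (n + 1) ≫ asym η M (n + 1) = 0 := by
    have e1 : r ≫ (i ≫ tpm (mo (f ^ k)) (n + 1) ≫ r) ≫ i = 0 := by
      rw [h1]
      simp
    have e2 : r ≫ (i ≫ tpm (mo (f ^ k)) (n + 1) ≫ r) ≫ i =
        tpm (mo (f ^ k)) (n + 1) ≫ asym η M (n + 1) := by
      calc r ≫ (i ≫ tpm (mo (f ^ k)) (n + 1) ≫ r) ≫ i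
          = ((r ≫ i) ≫ tpm (mo (f ^ k)) (n + 1)) ≫ (r ≫ i) := by simp only [Category.assoc]
        _ = tpm (mo (f ^ k)) (n + 1) ≫ asym η M (n + 1) ≫ asym η M (n + 1) := by
            rw [hcomm, hri, Category.assoc]
        _ = _ := by rw [asym_idem hη]
    rw [← e2, e1]
  have h3 : gg η (n + 1) (fun _ : Fin (n + 1) => f ^ k) = 0 := by
    rw [gg, Dn_const]
    change _ • (tpm (mo (f ^ k)) (n + 1) ≫ asym η M (n + 1)) = 0
    rw [h2, smul_zero]
  have h4 := cc_gg hU hη n (fun _ : Fin (n + 1) => f ^ k)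
  rw [h3, map_zero] at h4
  rcases Nat.eq_zero_or_pos k with hk0 | hk0
  · subst hk0
    simp only [pow_zero] at hk
    -- the power vanishes altogether
    have h5 : asym η M (n + 1) = 0 := by
      have e1 := h2
      have e2 : tpm (mo (f ^ 0)) (n + 1) = 𝟙 _ := by
        rw [pow_zero]
        exact tpm_id M (n + 1)
      rwa [e2, Category.id_comp] at e1
    have h6 : gg η (n + 1) (fun _ : Fin (n + 1) => f ^ 1) = 0 := by
      rw [gg, h5, comp_zero, smul_zero]
    have h7 := cc_gg hU hη n (fun _ : Fin (n + 1) => f ^ 1)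
    rw [h6, map_zero, Pool.Agent.TH829.Kim.K_of_tr_zero (trq hU M) η (h := f) (fun j hj => ?_) n
      (fun _ => 1) (fun _ => le_rfl)] at h7
    · have h8 : (η ^ n * n.factorial : ℚ) ≠ 0 := by
        have : η ≠ 0 := fun h => by simp [h] at hη
        positivity
      exact ⟨_, (smul_eq_zero.1 h7.symm).resolve_left h8⟩
    · apply trq_eq_zero R hU
      obtain ⟨j, rfl⟩ : ∃ j', j = j' + 1 := ⟨j - 1, by omega⟩
      rw [pow_succ]
      change R.H.map (mo f ≫ mo (f ^ j)) = 0
      rw [Functor.map_comp]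
      have : R.H.map (mo f) = 0 := hf
      rw [this, zero_comp]
  · rw [Pool.Agent.TH829.Kim.K_of_tr_zero (trq hU M) η (h := f) (fun j hj => ?_) n
      (fun _ => k) (fun _ => hk0)] at h4
    · have h8 : (η ^ n * n.factorial : ℚ) ≠ 0 := by
        have : η ≠ 0 := fun h => by simp [h] at hη
        positivity
      exact ⟨_, (smul_eq_zero.1 h4.symm).resolve_left h8⟩
    · apply trq_eq_zero R hU
      obtain ⟨j, rfl⟩ : ∃ j', j = j' + 1 := ⟨j - 1, by omega⟩
      rw [pow_succ]
      change R.H.map (mo f ≫ mo (f ^ j)) = 0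
      rw [Functor.map_comp]
      have : R.H.map (mo f) = 0 := hf
      rw [this, zero_comp]

end

end Pool.Agent.K3h63.PD
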