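import Pool.Agent.K3h63.PD.Gen

/-!
# Tensor products of objects with a vanishing exterior or symmetric power
-/

set_option autoImplicit false
set_option linter.unusedSectionVars false
set_option linter.unusedSimpArgs false

open CategoryTheory Limits MonoidalCategory
open Pool.Agent.Y112.KD

namespace Pool.Agent.K3h63.PD

universe v u

section

variable {C : Type u} [Category.{v} C] [MonoidalCategory C] [SymmetricCategory C]
  [Preadditive C] [Linear ℚ C] [MonoidalPreadditive C] [MonoidalLinear ℚ C]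

/-- The symmetrizer of the first factors as a morphism. -/
noncomputable abbrev ym (κ : ℚ) (X : C) (N m : ℕ) : tp X N ⟶ tp X N :=
  (sy κ (sg X N) m : End (tp X N))

/-- An endomorphism as a morphism. -/
abbrev mo {X : C} (x : End X) : X ⟶ X := x

lemma sm_sq (X : C) (N i : ℕ) (hi : i + 1 < N) : sm X N i ≫ sm X N i = 𝟙 _ := by
  obtain ⟨N, rfl⟩ : ∃ M, N = M + 1 := ⟨N - 1, by omega⟩
  exact (cox_sg X N).sq i (by omega)

/-- The comparison with the second factor. -/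
lemma ff_left {A B Z : C} {N : ℕ} {θ : ℚ} (hθ : θ * θ = 1) (F : Z ⟶ tp A N ⊗ tp B N)
    (hF : ∀ i, i + 1 < N → F ≫ (sm A N i ⊗ₘ sm B N i) = θ • F) (i : ℕ) (hi : i + 1 < N) :
    F ≫ (tp A N ◁ sm B N i) = θ • (F ≫ (sm A N i ▷ tp B N)) ∧
      F ≫ (sm A N i ▷ tp B N) = θ • (F ≫ (tp A N ◁ sm B N i)) := by
  have h1 : (sm A N i ⊗ₘ sm B N i) ≫ (sm A N i ▷ tp B N) = tp A N ◁ sm B N i := by
    rw [← tensorHom_id, tensorHom_comp_tensorHom, sm_sq A N i hi, Category.comp_id,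
      id_tensorHom]
  have h2 : F ≫ (tp A N ◁ sm B N i) = θ • (F ≫ (sm A N i ▷ tp B N)) := by
    rw [← h1, ← Category.assoc, hF i hi, Linear.smul_comp]
  refine ⟨h2, ?_⟩
  rw [h2, smul_smul, hθ, one_smul]

/-- The transport of a symmetrizer from the first to the second factor. -/
lemma ff_sy {A B Z : C} {N : ℕ} {κ θ : ℚ} (hθ : θ * θ = 1) (F : Z ⟶ tp A N ⊗ tp B N)
    (hF : ∀ i, i + 1 < N → F ≫ (sm A N i ⊗ₘ sm B N i) = θ • F) (m : ℕ) (hm : m ≤ N) :
    F ≫ (tp A N ◁ ym (κ * θ) B N m) =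
      F ≫ (ym κ A N m ▷ tp B N) := by
  induction m with
  | zero =>
    have h1 : ym (κ * θ) B N 0 = 𝟙 _ := rfl
    have h2 : ym κ A N 0 = 𝟙 _ := rfl
    rw [h1, h2, whiskerLeft_id, id_whiskerRight]
  | succ m ih =>
    rcases m with - | m
    · have h1 : ym (κ * θ) B N 1 = 𝟙 _ := rfl
      have h2 : ym κ A N 1 = 𝟙 _ := rfl
      rw [h1, h2, whiskerLeft_id, id_whiskerRight]
    · have ih' := ih (by omega)
      obtain ⟨h3, -⟩ := ff_left hθ F hF m (by omega)
      set P : tp A N ⟶ tp A N := ym κ A N (m + 1) with hP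
      set Q : tp B N ⟶ tp B N := ym (κ * θ) B N (m + 1) with hQ
      have e1 : ym (κ * θ) B N (m + 2) =
          (((m + 1 : ℕ) : ℚ) + 1)⁻¹ • (Q + ((κ * θ) * ((m + 1 : ℕ) : ℚ)) •
            (Q ≫ sm B N m ≫ Q)) := rfl
      have e2 : ym κ A N (m + 2) =
          (((m + 1 : ℕ) : ℚ) + 1)⁻¹ • (P + (κ * ((m + 1 : ℕ) : ℚ)) •
            (P ≫ sm A N m ≫ P)) := rfl
      change F ≫ (tp A N ◁ Q) = F ≫ (P ▷ tp B N) at ih'
      have key : F ≫ (tp A N ◁ (Q ≫ sm B N m ≫ Q)) = θ • (F ≫ ((P ≫ sm A N m ≫ P) ▷ tp B N)) := by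
        calc F ≫ (tp A N ◁ (Q ≫ sm B N m ≫ Q))
            = (F ≫ (tp A N ◁ Q)) ≫ (tp A N ◁ (sm B N m ≫ Q)) := by
              rw [MonoidalCategory.whiskerLeft_comp, Category.assoc]
          _ = F ≫ (P ▷ tp B N) ≫ (tp A N ◁ (sm B N m ≫ Q)) := by
              rw [ih', Category.assoc]
          _ = (F ≫ (tp A N ◁ sm B N m)) ≫ (tp A N ◁ Q) ≫ (P ▷ tp B N) := by
              rw [← whisker_exchange, MonoidalCategory.whiskerLeft_comp]
              simp only [Category.assoc]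
          _ = θ • (F ≫ (tp A N ◁ Q) ≫ (sm A N m ▷ tp B N) ≫ (P ▷ tp B N)) := by
              rw [h3, Linear.smul_comp, Category.assoc, whisker_exchange_assoc]
          _ = θ • ((F ≫ (tp A N ◁ Q)) ≫ (sm A N m ▷ tp B N) ≫ (P ▷ tp B N)) := by
              rw [Category.assoc]
          _ = _ := by
              rw [ih', comp_whiskerRight, comp_whiskerRight]
              simp only [Category.assoc]
      rw [e1, e2, MonoidalLinear.whiskerLeft_smul, MonoidalPreadditive.whiskerLeft_add,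
        MonoidalLinear.whiskerLeft_smul, MonoidalLinear.smul_whiskerRight,
        MonoidalPreadditive.add_whiskerRight, MonoidalLinear.smul_whiskerRight,
        Linear.comp_smul, Linear.comp_smul, Preadditive.comp_add, Preadditive.comp_add,
        Linear.comp_smul, Linear.comp_smul, key, ih', smul_smul]
      congr 3
      linear_combination (κ * ((m + 1 : ℕ) : ℚ)) * hθ

/-- The ideal of a morphism. -/
def jj {A B Z : C} {N : ℕ} (F : Z ⟶ tp A N ⊗ tp B N) : Submodule ℚ (End (tp B N)) where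
  carrier := {x | F ≫ (tp A N ◁ mo x) = 0}
  add_mem' := by
    intro x y hx hy
    change F ≫ (tp A N ◁ (mo x + mo y)) = 0
    rw [MonoidalPreadditive.whiskerLeft_add, Preadditive.comp_add, hx, hy, add_zero]
  zero_mem' := by
    change F ≫ (tp A N ◁ (0 : tp B N ⟶ tp B N)) = 0
    rw [MonoidalPreadditive.whiskerLeft_zero, comp_zero]
  smul_mem' := by
    intro c x hx
    change F ≫ (tp A N ◁ (c • mo x)) = 0
    rw [MonoidalLinear.whiskerLeft_smul, Linear.comp_smul, hx, smul_zero]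

lemma mem_jj {A B Z : C} {N : ℕ} (F : Z ⟶ tp A N ⊗ tp B N) (x : End (tp B N)) :
    x ∈ jj F ↔ F ≫ (tp A N ◁ mo x) = 0 := Iff.rfl

lemma jj_isId {A B Z : C} {N : ℕ} {θ : ℚ} (hθ : θ * θ = 1) (F : Z ⟶ tp A N ⊗ tp B N)
    (hF : ∀ i, i + 1 < N → F ≫ (sm A N i ⊗ₘ sm B N i) = θ • F) (n : ℕ) (hn : n + 1 ≤ N) :
    IsId (sg B N) n (jj F) where
  left i hi x hx := by
    rw [mem_jj] at hx ⊢
    change F ≫ (tp A N ◁ (mo x ≫ sm B N i)) = 0
    rw [MonoidalCategory.whiskerLeft_comp, ← Category.assoc, hx, zero_comp]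
  right i hi x hx := by
    rw [mem_jj] at hx ⊢
    change F ≫ (tp A N ◁ (sm B N i ≫ mo x)) = 0
    obtain ⟨h3, -⟩ := ff_left hθ F hF i (by omega)
    rw [MonoidalCategory.whiskerLeft_comp, ← Category.assoc, h3, Linear.smul_comp,
      Category.assoc, ← whisker_exchange, ← Category.assoc, hx, zero_comp, smul_zero]

/-- Tensor products of objects with a vanishing exterior or symmetric power. -/
theorem tensor_kill {κ lam : ℚ} (hκ : κ * κ = 1) (hlam : lam * lam = 1) {A B : C} {a b : ℕ}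
    (hA : asym κ A (a + 1) = 0) (hB : asym lam B (b + 1) = 0) :
    ∃ N, asym (-(κ * lam)) (A ⊗ B) N = 0 := by
  set θ : ℚ := -(κ * lam) with hθd
  have hθ : θ * θ = 1 := by
    rw [hθd]
    linear_combination (lam * lam) * hκ + hlam
  have hκθ : κ * θ * (κ * θ) = 1 := by linear_combination (θ * θ) * hκ + hθ
  have hlam' : -(κ * θ) = lam := by
    rw [hθd]
    linear_combination lam * hκ
  obtain ⟨N0, h0⟩ := big.{v} hκθ a b
  refine ⟨N0 + a + b + 1 + 1, ?_⟩
  set N := N0 + a + b + 1 with hN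
  set F : tp (A ⊗ B) (N + 1) ⟶ tp A (N + 1) ⊗ tp B (N + 1) :=
    asym θ (A ⊗ B) (N + 1) ≫ zip A B (N + 1) with hFd
  have hF : ∀ i, i + 1 < N + 1 → F ≫ (sm A (N + 1) i ⊗ₘ sm B (N + 1) i) = θ • F := by
    intro i hi
    have h1 := (gen_sy hθ (N + 1) (cox_sg (A ⊗ B) N) i hi).1
    rw [sy_asym] at h1
    have h2 : asym θ (A ⊗ B) (N + 1) ≫ sm (A ⊗ B) (N + 1) i = θ • asym θ (A ⊗ B) (N + 1) := h1
    rw [hFd, Category.assoc, ← zip_sg, ← Category.assoc, h2, Linear.smul_comp]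
  have h1 : (1 : End (tp B (N + 1))) ∈ jj F := by
    apply h0 (End (tp B (N + 1))) N (by omega) (sg B (N + 1)) (jj F) (cox_sg B N)
      (jj_isId hθ F hF N le_rfl)
    · rw [mem_jj]
      have h2 := ff_sy (κ := κ) hθ F hF (a + 1) (by omega)
      change F ≫ (tp A (N + 1) ◁ ym (κ * θ) B (N + 1) (a + 1)) = 0
      rw [h2]
      have h3 : ym κ A (N + 1) (a + 1) = 0 := sy_zero_of_asym hA (N + 1) (by omega)
      rw [h3, MonoidalPreadditive.zero_whiskerRight, comp_zero]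
    · rw [mem_jj, hlam']
      have h3 : ym lam B (N + 1) (b + 1) = 0 := sy_zero_of_asym hB (N + 1) (by omega)
      change F ≫ (tp A (N + 1) ◁ ym lam B (N + 1) (b + 1)) = 0
      rw [h3, MonoidalPreadditive.whiskerLeft_zero, comp_zero]
  have h2 : F = 0 := by
    have h3 : F ≫ (tp A (N + 1) ◁ 𝟙 (tp B (N + 1))) = 0 := h1
    rwa [whiskerLeft_id, Category.comp_id] at h3
  obtain ⟨u, hu⟩ := zip_mono A B (N + 1)
  have h3 := congrArg (fun z => z ≫ u) h2
  simpa [hFd, hu] using h3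

end

end Pool.Agent.K3h63.PD
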