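import Pool.Agent.K3h63.PD.Tens

/-!
# Concatenation of tensor powers and the comparison of products of powers
-/

set_option autoImplicit false
set_option linter.unusedSectionVars false
set_option linter.unusedSimpArgs false

open CategoryTheory Limits MonoidalCategory
open Pool.Agent.Y112.KD

namespace Pool.Agent.K3h63.PD

universe v u

section

variable {C : Type u} [Category.{v} C] [MonoidalCategory C] [SymmetricCategory C]

/-- Concatenation of tensor powers. -/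
def cat (X : C) (a : ℕ) : ∀ b : ℕ, tp X a ⊗ tp X b ≅ tp X (a + b)
  | 0 => ρ_ (tp X a)
  | b + 1 => (α_ (tp X a) (tp X b) X).symm ≪≫ whiskerRightIso (cat X a b) X

lemma cat_zero (X : C) (a : ℕ) : (cat X a 0).hom = (ρ_ (tp X a)).hom := rfl

lemma cat_succ (X : C) (a b : ℕ) : (cat X a (b + 1)).hom =
    (α_ (tp X a) (tp X b) X).inv ≫ (cat X a b).hom ▷ X := rfl

/-- The exchange of two factors next to a further factor on the left. -/
lemma sw_assoc (Y Q X : C) : (Y ◁ sw Q X) ≫ (α_ Y (Q ⊗ X) X).inv ≫ (α_ Y Q X).inv ▷ X =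
    (α_ Y (Q ⊗ X) X).inv ≫ (α_ Y Q X).inv ▷ X ≫ sw (Y ⊗ Q) X := by
  simp only [sw]
  monoidal

variable [Preadditive C] [Linear ℚ C] [MonoidalPreadditive C] [MonoidalLinear ℚ C]

lemma cat_right (X : C) (a b j : ℕ) (hj : j + 1 < b) :
    (tp X a ◁ sm X b j) ≫ (cat X a b).hom = (cat X a b).hom ≫ sm X (a + b) (a + j) := by
  induction b with
  | zero => omega
  | succ b ih =>
    rcases b with - | b
    · omega
    · by_cases h : j = b
      · subst h
        have h1 : sm X (j + 2) j = sw (tp X j) X := sg_last X j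
        have h2 : sm X (a + (j + 2)) (a + j) = sw (tp X (a + j)) X := sg_last X (a + j)
        rw [cat_succ, cat_succ, comp_whiskerRight, h1]
        change _ = _ ≫ sm X (a + (j + 2)) (a + j)
        rw [h2]
        rw [reassoc_of% (sw_assoc (tp X a) (tp X j) X)]
        simp only [Category.assoc]
        rw [sw_nat_left (X := X) (cat X a j).hom]
      · have h1 : sm X (b + 2) j = sm X (b + 1) j ▷ X := sg_lift X b j h
        have h2 : sm X (a + (b + 2)) (a + j) = sm X (a + (b + 1)) (a + j) ▷ X :=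
          sg_lift X (a + b) (a + j) (by omega)
        have h3 := ih (by omega)
        rw [cat_succ, h1]
        change _ = _ ≫ sm X (a + (b + 2)) (a + j)
        rw [h2, associator_inv_naturality_middle_assoc, ← comp_whiskerRight, h3,
          comp_whiskerRight, Category.assoc]

lemma cat_left (X : C) (a b i : ℕ) (hi : i + 1 < a) :
    (sm X a i ▷ tp X b) ≫ (cat X a b).hom = (cat X a b).hom ≫ sm X (a + b) i := by
  induction b with
  | zero => exact rightUnitor_naturality (sm X a i)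
  | succ b ih =>
    obtain ⟨N, hN⟩ : ∃ N, a + b = N + 1 := ⟨a + b - 1, by omega⟩
    have h2 : sm X (a + (b + 1)) i = sm X (a + b) i ▷ X := by
      change sm X (a + b + 1) i = sm X (a + b) i ▷ X
      rw [hN]
      exact sg_lift X N i (by omega)
    rw [cat_succ]
    change _ = _ ≫ sm X (a + (b + 1)) i
    rw [h2, associator_inv_naturality_left_assoc, ← comp_whiskerRight, ih, comp_whiskerRight,
      Category.assoc]

/-- Endomorphisms of the right factor. -/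
def cr (X : C) (a b : ℕ) : End (tp X b) →ₐ[ℚ] End (tp X (a + b)) where
  toFun x := (cat X a b).inv ≫ (tp X a ◁ mo x) ≫ (cat X a b).hom
  map_one' := by
    change (cat X a b).inv ≫ (tp X a ◁ 𝟙 _) ≫ (cat X a b).hom = 𝟙 _
    simp
  map_mul' x y := by
    change (cat X a b).inv ≫ (tp X a ◁ (mo y ≫ mo x)) ≫ (cat X a b).hom =
      ((cat X a b).inv ≫ (tp X a ◁ mo y) ≫ (cat X a b).hom) ≫
      ((cat X a b).inv ≫ (tp X a ◁ mo x) ≫ (cat X a b).hom)
    simp
  map_zero' := by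
    change (cat X a b).inv ≫ (tp X a ◁ 0) ≫ (cat X a b).hom = 0
    simp
  map_add' x y := by
    change (cat X a b).inv ≫ (tp X a ◁ (mo x + mo y)) ≫ (cat X a b).hom =
      ((cat X a b).inv ≫ (tp X a ◁ mo x) ≫ (cat X a b).hom) +
      ((cat X a b).inv ≫ (tp X a ◁ mo y) ≫ (cat X a b).hom)
    simp
  commutes' c := by
    have h1 : ∀ Y : C, (mo (algebraMap ℚ (End Y) c)) = c • (𝟙 Y) := fun Y => by
      rw [Algebra.algebraMap_eq_smul_one]
      rfl
    change (cat X a b).inv ≫ (tp X a ◁ mo (algebraMap ℚ (End (tp X b)) c)) ≫ (cat X a b).hom =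
      mo (algebraMap ℚ (End (tp X (a + b))) c)
    rw [h1, h1, MonoidalLinear.whiskerLeft_smul]
    simp

/-- Endomorphisms of the left factor. -/
def cl (X : C) (a b : ℕ) : End (tp X a) →ₐ[ℚ] End (tp X (a + b)) where
  toFun x := (cat X a b).inv ≫ (mo x ▷ tp X b) ≫ (cat X a b).hom
  map_one' := by
    change (cat X a b).inv ≫ (𝟙 _ ▷ tp X b) ≫ (cat X a b).hom = 𝟙 _
    simp
  map_mul' x y := by
    change (cat X a b).inv ≫ ((mo y ≫ mo x) ▷ tp X b) ≫ (cat X a b).hom =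
      ((cat X a b).inv ≫ (mo y ▷ tp X b) ≫ (cat X a b).hom) ≫
      ((cat X a b).inv ≫ (mo x ▷ tp X b) ≫ (cat X a b).hom)
    simp
  map_zero' := by
    change (cat X a b).inv ≫ (0 ▷ tp X b) ≫ (cat X a b).hom = 0
    simp
  map_add' x y := by
    change (cat X a b).inv ≫ ((mo x + mo y) ▷ tp X b) ≫ (cat X a b).hom =
      ((cat X a b).inv ≫ (mo x ▷ tp X b) ≫ (cat X a b).hom) +
      ((cat X a b).inv ≫ (mo y ▷ tp X b) ≫ (cat X a b).hom)
    simp
  commutes' c := by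
    have h1 : ∀ Y : C, (mo (algebraMap ℚ (End Y) c)) = c • (𝟙 Y) := fun Y => by
      rw [Algebra.algebraMap_eq_smul_one]
      rfl
    change (cat X a b).inv ≫ (mo (algebraMap ℚ (End (tp X a)) c) ▷ tp X b) ≫ (cat X a b).hom =
      mo (algebraMap ℚ (End (tp X (a + b))) c)
    rw [h1, h1, MonoidalLinear.smul_whiskerRight]
    simp

lemma cr_sg (X : C) (a b j : ℕ) (hj : j + 1 < b) :
    cr X a b (sg X b j) = sg X (a + b) (a + j) := by
  change (cat X a b).inv ≫ (tp X a ◁ sm X b j) ≫ (cat X a b).hom = sm X (a + b) (a + j)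
  rw [cat_right X a b j hj, Iso.inv_hom_id_assoc]

lemma cl_sg (X : C) (a b i : ℕ) (hi : i + 1 < a) :
    cl X a b (sg X a i) = sg X (a + b) i := by
  change (cat X a b).inv ≫ (sm X a i ▷ tp X b) ≫ (cat X a b).hom = sm X (a + b) i
  rw [cat_left X a b i hi, Iso.inv_hom_id_assoc]

lemma ee_cat (η : ℚ) (X : C) (a b : ℕ) : mo (ee η (sg X (a + b)) (a + b) a) =
    (cat X a b).inv ≫ (asym η X a ⊗ₘ asym η X b) ≫ (cat X a b).hom := by
  have h1 : sy η (sg X (a + b)) a = cl X a b (asym η X a) := by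
    rw [← sy_asym, map_sy]
    exact sy_congr a fun j hj => (cl_sg X a b j hj).symm
  have h2 : sy η (sh a (sg X (a + b))) b = cr X a b (asym η X b) := by
    rw [← sy_asym, map_sy]
    exact sy_congr b fun j hj => (cr_sg X a b j hj).symm
  have h3 : ee η (sg X (a + b)) (a + b) a = cl X a b (asym η X a) * cr X a b (asym η X b) := by
    rw [ee, Nat.add_sub_cancel_left, h1, h2]
  rw [h3]
  change ((cat X a b).inv ≫ (tp X a ◁ asym η X b) ≫ (cat X a b).hom) ≫
      ((cat X a b).inv ≫ (asym η X a ▷ tp X b) ≫ (cat X a b).hom) = _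
  simp only [Category.assoc, Iso.hom_inv_id_assoc]
  rw [tensorHom_def', Category.assoc]

/-- The idempotent of two blocks in terms of the tensor product of the symmetrizers. -/
lemma exists_cat (η : ℚ) (X : C) {a b L : ℕ} (h : a + b = L) :
    ∃ c : tp X a ⊗ tp X b ≅ tp X L, mo (ee η (sg X L) L a) =
      c.inv ≫ (asym η X a ⊗ₘ asym η X b) ≫ c.hom := by
  subst h
  exact ⟨cat X a b, ee_cat η X a b⟩

/-- The product of the powers of orders `m` and `m + 2` is a direct summand of the square of the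
power of order `m + 1`. -/
theorem power_retract {η : ℚ} (hη : η * η = 1) {X : C} (m : ℕ) {P Q D : C}
    (i : P ⟶ tp X m) (r : tp X m ⟶ P) (h1 : i ≫ r = 𝟙 P) (h2 : r ≫ i = asym η X m)
    (i' : Q ⟶ tp X (m + 2)) (r' : tp X (m + 2) ⟶ Q) (h1' : i' ≫ r' = 𝟙 Q)
    (h2' : r' ≫ i' = asym η X (m + 2))
    (j : D ⟶ tp X (m + 1)) (q : tp X (m + 1) ⟶ D) (h4 : q ≫ j = asym η X (m + 1)) :
    ∃ (a : P ⊗ Q ⟶ D ⊗ D) (b : D ⊗ D ⟶ P ⊗ Q), a ≫ b = 𝟙 _ := by
  have hL1 : m + (m + 2) = 2 * (m + 1) := by omega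
  have hL2 : (m + 1) + (m + 1) = 2 * (m + 1) := by omega
  obtain ⟨c, hc⟩ := exists_cat η X hL1
  obtain ⟨c', hc'⟩ := exists_cat η X hL2
  have hC : Cox (sg X (2 * (m + 1))) (2 * (m + 1) - 1) := by
    obtain ⟨N, hN⟩ : ∃ N, 2 * (m + 1) = N + 1 := ⟨2 * m + 1, by omega⟩
    rw [hN]
    exact cox_sg X N
  obtain ⟨g, hg⟩ := retr hη (m + 1) (by omega) hC
  rw [Nat.add_sub_cancel] at hg
  have hg' : mo g ≫ mo (ee η (sg X (2 * (m + 1))) (2 * (m + 1)) (m + 1)) ≫
      mo (ee η (sg X (2 * (m + 1))) (2 * (m + 1)) m) =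
      mo (ee η (sg X (2 * (m + 1))) (2 * (m + 1)) m) := hg
  rw [hc, hc'] at hg'
  have k1 : (i ⊗ₘ i') ≫ (asym η X m ⊗ₘ asym η X (m + 2)) = (i ⊗ₘ i') := by
    rw [tensorHom_comp_tensorHom, ← h2, ← h2', reassoc_of% h1, reassoc_of% h1']
  refine ⟨(i ⊗ₘ i') ≫ c.hom ≫ mo g ≫ c'.inv ≫ (q ⊗ₘ q),
    (j ⊗ₘ j) ≫ c'.hom ≫ c.inv ≫ (r ⊗ₘ r'), ?_⟩
  have k2 : (r ⊗ₘ r') = (asym η X m ⊗ₘ asym η X (m + 2)) ≫ (r ⊗ₘ r') := by
    rw [tensorHom_comp_tensorHom, ← h2, ← h2', Category.assoc, Category.assoc, h1, h1',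
      Category.comp_id, Category.comp_id]
  have k3 : (q ⊗ₘ q) ≫ (j ⊗ₘ j) = (asym η X (m + 1) ⊗ₘ asym η X (m + 1)) := by
    rw [tensorHom_comp_tensorHom, h4]
  calc ((i ⊗ₘ i') ≫ c.hom ≫ mo g ≫ c'.inv ≫ (q ⊗ₘ q)) ≫
        (j ⊗ₘ j) ≫ c'.hom ≫ c.inv ≫ (r ⊗ₘ r')
      = (i ⊗ₘ i') ≫ c.hom ≫ mo g ≫ c'.inv ≫ ((q ⊗ₘ q) ≫ (j ⊗ₘ j)) ≫ c'.hom ≫ c.inv ≫
          (r ⊗ₘ r') := by simp only [Category.assoc]
    _ = (i ⊗ₘ i') ≫ c.hom ≫ (mo g ≫ (c'.inv ≫ (asym η X (m + 1) ⊗ₘ asym η X (m + 1)) ≫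
          c'.hom) ≫ (c.inv ≫ (asym η X m ⊗ₘ asym η X (m + 2)) ≫ c.hom)) ≫ c.inv ≫
          (r ⊗ₘ r') := by
        rw [k3]
        nth_rewrite 1 [k2]
        simp only [Category.assoc, Iso.hom_inv_id_assoc]
    _ = (i ⊗ₘ i') ≫ (asym η X m ⊗ₘ asym η X (m + 2)) ≫ (r ⊗ₘ r') := by
        rw [hg']
        simp only [Category.assoc, Iso.hom_inv_id_assoc]
    _ = 𝟙 _ := by
        rw [← Category.assoc, k1, tensorHom_comp_tensorHom, h1, h1', id_tensorHom_id]

/-- A power is a direct summand of the product of the smaller power and the object. -/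
lemma power_succ_retract {η : ℚ} (hη : η * η = 1) {X : C} (m : ℕ) {P D : C}
    (i : P ⟶ tp X m) (r : tp X m ⟶ P) (h2 : r ≫ i = asym η X m)
    (j : D ⟶ tp X (m + 1)) (q : tp X (m + 1) ⟶ D) (h3 : j ≫ q = 𝟙 D)
    (h4 : q ≫ j = asym η X (m + 1)) :
    (j ≫ r ▷ X) ≫ (i ▷ X ≫ q) = 𝟙 D := by
  have h5 : j = j ≫ asym η X (m + 1) := by rw [← h4, reassoc_of% h3]
  calc (j ≫ r ▷ X) ≫ (i ▷ X ≫ q) = j ≫ ((r ≫ i) ▷ X) ≫ q := by
        rw [comp_whiskerRight]
        simp only [Category.assoc]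
    _ = (j ≫ asym η X (m + 1) ≫ (asym η X m ▷ X)) ≫ q := by
        rw [h2]
        nth_rewrite 1 [h5]
        simp only [Category.assoc]
    _ = 𝟙 D := by rw [(absorb hη X m).2, ← h5, h3]

end

end Pool.Agent.K3h63.PD
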