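import Pool.Agent.Y112.KD.Ring

/-!
# Symmetrizers in a ring with Coxeter generators of a symmetric group
-/

set_option autoImplicit false
set_option linter.unusedSectionVars false

open Pool.Agent.Y112.KD (step)

namespace Pool.Agent.K3h63.PD

section

variable {R : Type*} [Ring R]

/-- The Coxeter relations for `s 0, …, s (n - 1)`. -/
structure Cox (s : ℕ → R) (n : ℕ) : Prop where
  sq : ∀ i, i < n → s i * s i = 1
  br : ∀ i, i + 1 < n → s i * s (i + 1) * s i = s (i + 1) * s i * s (i + 1)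
  cm : ∀ i j, i + 2 ≤ j → j < n → s i * s j = s j * s i

/-- The shifted sequence. -/
def sh (k : ℕ) (s : ℕ → R) : ℕ → R := fun j => s (k + j)

lemma Cox.mono {s : ℕ → R} {n m : ℕ} (h : Cox s n) (hm : m ≤ n) : Cox s m where
  sq i hi := h.sq i (by omega)
  br i hi := h.br i (by omega)
  cm i j h1 h2 := h.cm i j h1 (by omega)

lemma Cox.shift {s : ℕ → R} {n : ℕ} (h : Cox s n) (k m : ℕ) (hm : k + m ≤ n) :
    Cox (sh k s) m where
  sq i hi := h.sq (k + i) (by omega)
  br i hi := h.br (k + i) (by omega)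
  cm i j h1 h2 := h.cm (k + i) (k + j) (by omega) (by omega)

lemma Cox.rev {s : ℕ → R} {m : ℕ} (h : Cox s m) : Cox (fun j => s (m - 1 - j)) m where
  sq i hi := h.sq _ (by omega)
  br i hi := by
    have h1 := h.br (m - 1 - (i + 1)) (by omega)
    have h2 : m - 1 - (i + 1) + 1 = m - 1 - i := by omega
    rw [h2] at h1
    exact h1.symm
  cm i j h1 h2 := (h.cm (m - 1 - j) (m - 1 - i) (by omega) (by omega)).symm

lemma sh_sh (k l : ℕ) (s : ℕ → R) : sh l (sh k s) = sh (k + l) s := by
  funext j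
  simp only [sh]
  congr 1
  omega

lemma sh_zero (s : ℕ → R) : sh 0 s = s := by
  funext j
  simp [sh]

variable [Algebra ℚ R]

/-- The (anti)symmetrizer on the first `m` letters. -/
noncomputable def sy (η : ℚ) (s : ℕ → R) : ℕ → R
  | 0 => 1
  | 1 => 1
  | m + 2 => (((m + 1 : ℕ) : ℚ) + 1)⁻¹ • (sy η s (m + 1) +
      (η * ((m + 1 : ℕ) : ℚ)) • (sy η s (m + 1) * s m * sy η s (m + 1)))

lemma sy_zero (η : ℚ) (s : ℕ → R) : sy η s 0 = 1 := rfl

lemma sy_one (η : ℚ) (s : ℕ → R) : sy η s 1 = 1 := rfl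

lemma sy_succ (η : ℚ) (s : ℕ → R) (m : ℕ) : sy η s (m + 2) =
    (((m + 1 : ℕ) : ℚ) + 1)⁻¹ • (sy η s (m + 1) +
      (η * ((m + 1 : ℕ) : ℚ)) • (sy η s (m + 1) * s m * sy η s (m + 1))) := rfl

lemma sy_comm {η : ℚ} {s : ℕ → R} (x : R) (m : ℕ) (h : ∀ j, j + 1 < m → x * s j = s j * x) :
    x * sy η s m = sy η s m * x := by
  induction m with
  | zero => simp [sy_zero]
  | succ m ih =>
    rcases m with - | m
    · simp [sy_one]
    · have h1 := ih (fun j hj => h j (by omega))
      have h2 := h m (by omega)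
      rw [sy_succ, mul_smul_comm, smul_mul_assoc, mul_add, add_mul, mul_smul_comm,
        smul_mul_assoc, h1]
      congr 3
      calc x * (sy η s (m + 1) * s m * sy η s (m + 1))
          = (x * sy η s (m + 1)) * s m * sy η s (m + 1) := by simp only [mul_assoc]
        _ = sy η s (m + 1) * (x * s m) * sy η s (m + 1) := by rw [h1]; simp only [mul_assoc]
        _ = sy η s (m + 1) * s m * (x * sy η s (m + 1)) := by rw [h2]; simp only [mul_assoc]
        _ = _ := by rw [h1]; simp only [mul_assoc]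

lemma sy_main {η : ℚ} (hη : η * η = 1) {s : ℕ → R} (m : ℕ) (hC : Cox s (m + 1)) :
    sy η s (m + 1) * sy η s (m + 1) = sy η s (m + 1) ∧
    sy η s (m + 2) * sy η s (m + 2) = sy η s (m + 2) ∧
    s m * sy η s (m + 2) = η • sy η s (m + 2) ∧
    sy η s (m + 2) * s m = η • sy η s (m + 2) := by
  induction m with
  | zero =>
    have h0 := hC.sq 0 (by omega)
    have h1 : sy η s 2 = (2 : ℚ)⁻¹ • (1 + η • s 0) := by
      rw [sy_succ, sy_one]
      simp only [one_mul, mul_one]
      norm_num
    have h2 : s 0 * (1 + η • s 0) = η • (1 + η • s 0) := by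
      rw [mul_add, mul_smul_comm, h0, mul_one, smul_add, smul_smul, hη, one_smul, add_comm]
    have h3 : (1 + η • s 0) * s 0 = η • (1 + η • s 0) := by
      rw [add_mul, smul_mul_assoc, h0, one_mul, smul_add, smul_smul, hη, one_smul, add_comm]
    refine ⟨by simp [sy_one], ?_, ?_, ?_⟩
    · rw [h1, smul_mul_smul_comm, add_mul, one_mul, smul_mul_assoc, h2, smul_smul, hη, one_smul,
        ← two_smul ℚ, smul_smul]
      norm_num
    · rw [h1, mul_smul_comm, h2, smul_comm]
    · rw [h1, smul_mul_assoc, h3, smul_comm]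
  | succ m ih =>
    obtain ⟨h0, h1, h2, h3⟩ := ih (hC.mono (by omega))
    refine ⟨h1, ?_⟩
    have hm : ((m + 2 : ℕ) : ℚ) ≠ 0 := by positivity
    have key := step (R := R) (c := sy η s (m + 1)) (t := s m) (s := s (m + 1))
      (a := sy η s (m + 2)) (η := η) (m := m + 2) hη hm h0
      (sy_comm (s (m + 1)) (m + 1) fun j hj => (hC.cm j (m + 1) (by omega) (by omega)).symm)
      (hC.sq (m + 1) (by omega)) (hC.br m (by omega)) h1 h2 h3 (by
        rw [sy_succ, smul_smul]
        have e1 : ((m + 2 : ℕ) : ℚ) * (((m + 1 : ℕ) : ℚ) + 1)⁻¹ = 1 := by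
          push_cast
          field_simp
          ring
        have e2 : η * ((m + 2 : ℕ) - 1 : ℚ) = η * ((m + 1 : ℕ) : ℚ) := by
          push_cast
          ring
        rw [e1, one_smul, e2])
    exact key

lemma sy_idem {η : ℚ} (hη : η * η = 1) {s : ℕ → R} (m : ℕ) (hC : Cox s (m - 1)) :
    sy η s m * sy η s m = sy η s m := by
  rcases m with - | m
  · simp [sy_zero]
  · rcases m with - | m
    · simp [sy_one]
    · exact (sy_main hη m (hC.mono (by omega))).2.1

lemma sy_absorb {η : ℚ} (hη : η * η = 1) {s : ℕ → R} (m : ℕ) (hC : Cox s m) :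
    sy η s m * sy η s (m + 1) = sy η s (m + 1) ∧
    sy η s (m + 1) * sy η s m = sy η s (m + 1) := by
  rcases m with - | m
  · simp [sy_zero, sy_one]
  · have h1 := sy_idem hη (m + 1) (hC.mono (by omega))
    rw [sy_succ]
    constructor
    · rw [mul_smul_comm, mul_add, mul_smul_comm, h1, ← mul_assoc, ← mul_assoc, h1]
    · rw [smul_mul_assoc, add_mul, smul_mul_assoc, h1, mul_assoc (_ * _), h1]

/-- The generators act on the symmetrizer. -/
lemma gen_sy {η : ℚ} (hη : η * η = 1) {s : ℕ → R} (m : ℕ) (hC : Cox s (m - 1)) (j : ℕ)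
    (hj : j + 1 < m) : s j * sy η s m = η • sy η s m ∧ sy η s m * s j = η • sy η s m := by
  induction m with
  | zero => omega
  | succ m ih =>
    rcases m with - | m
    · omega
    · obtain ⟨h1, h2⟩ := sy_absorb hη (m + 1) (hC.mono (by omega))
      by_cases h : j = m
      · subst h
        exact (sy_main hη j (hC.mono (by omega))).2.2
      · obtain ⟨h3, h4⟩ := ih (hC.mono (by omega)) (by omega)
        constructor
        · rw [← h1, ← mul_assoc, h3, smul_mul_assoc]
        · rw [← h2, mul_assoc, h4, mul_smul_comm]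

lemma sy_mul_eq {η : ℚ} (hη : η * η = 1) {s : ℕ → R} (m : ℕ) {y : R}
    (h : ∀ j, j + 1 < m → s j * y = η • y) : sy η s m * y = y := by
  induction m with
  | zero => simp [sy_zero]
  | succ m ih =>
    rcases m with - | m
    · simp [sy_one]
    · have h1 := ih fun j hj => h j (by omega)
      have hm : ((m + 1 : ℕ) : ℚ) + 1 ≠ 0 := by positivity
      rw [sy_succ, smul_mul_assoc, add_mul, h1, smul_mul_assoc, mul_assoc, h1, mul_assoc,
        h m (by omega), mul_smul_comm, h1, smul_smul]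
      have e1 : η * ((m + 1 : ℕ) : ℚ) * η = ((m + 1 : ℕ) : ℚ) := by
        linear_combination ((m + 1 : ℕ) : ℚ) * hη
      have e2 : y + ((m + 1 : ℕ) : ℚ) • y = (((m + 1 : ℕ) : ℚ) + 1) • y := by module
      rw [e1, e2, smul_smul, inv_mul_cancel₀ hm, one_smul]

lemma mul_sy_eq {η : ℚ} (hη : η * η = 1) {s : ℕ → R} (m : ℕ) {y : R}
    (h : ∀ j, j + 1 < m → y * s j = η • y) : y * sy η s m = y := by
  induction m with
  | zero => simp [sy_zero]
  | succ m ih =>
    rcases m with - | m
    · simp [sy_one]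
    · have h1 := ih fun j hj => h j (by omega)
      have hm : ((m + 1 : ℕ) : ℚ) + 1 ≠ 0 := by positivity
      rw [sy_succ, mul_smul_comm, mul_add, h1, mul_smul_comm, ← mul_assoc, ← mul_assoc, h1,
        h m (by omega), smul_mul_assoc, h1, smul_smul]
      have e1 : η * ((m + 1 : ℕ) : ℚ) * η = ((m + 1 : ℕ) : ℚ) := by
        linear_combination ((m + 1 : ℕ) : ℚ) * hη
      have e2 : y + ((m + 1 : ℕ) : ℚ) • y = (((m + 1 : ℕ) : ℚ) + 1) • y := by module
      rw [e1, e2, smul_smul, inv_mul_cancel₀ hm, one_smul]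

/-- The symmetrizer depends only on the set of the generators. -/
lemma sy_uniq {η : ℚ} (hη : η * η = 1) {s r : ℕ → R} (m : ℕ) (hs : Cox s (m - 1))
    (hr : Cox r (m - 1)) (h1 : ∀ j, j + 1 < m → ∃ i, i + 1 < m ∧ r i = s j)
    (h2 : ∀ j, j + 1 < m → ∃ i, i + 1 < m ∧ s i = r j) : sy η s m = sy η r m := by
  have e1 : sy η s m * sy η r m = sy η r m := by
    apply sy_mul_eq hη
    intro j hj
    obtain ⟨i, hi, hij⟩ := h1 j hj
    rw [← hij]
    exact (gen_sy hη m hr i hi).1
  have e2 : sy η s m * sy η r m = sy η s m := by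
    apply mul_sy_eq hη
    intro j hj
    obtain ⟨i, hi, hij⟩ := h2 j hj
    rw [← hij]
    exact (gen_sy hη m hs i hi).2
  rw [← e1, e2]

/-- The recursion from the left. -/
lemma sy_left {η : ℚ} (hη : η * η = 1) {s : ℕ → R} (m : ℕ) (hC : Cox s (m + 1)) :
    sy η s (m + 2) = (((m + 1 : ℕ) : ℚ) + 1)⁻¹ • (sy η (sh 1 s) (m + 1) +
      (η * ((m + 1 : ℕ) : ℚ)) • (sy η (sh 1 s) (m + 1) * s 0 * sy η (sh 1 s) (m + 1))) := by
  have h1 : sy η s (m + 2) = sy η (fun j => s (m + 1 - 1 - j)) (m + 2) := by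
    apply sy_uniq hη (m + 2) hC hC.rev
    · intro j hj
      refine ⟨m - j, by omega, ?_⟩
      congr 1
      omega
    · intro j hj
      exact ⟨m + 1 - 1 - j, by omega, rfl⟩
  have h2 : sy η (fun j => s (m + 1 - 1 - j)) (m + 1) = sy η (sh 1 s) (m + 1) := by
    apply sy_uniq hη (m + 1) (hC.rev.mono (by omega)) (hC.shift 1 m (by omega))
    · intro j hj
      refine ⟨m - j - 1, by omega, ?_⟩
      change s (1 + (m - j - 1)) = s (m + 1 - 1 - j)
      congr 1
      omega
    · intro j hj
      refine ⟨m - j - 1, by omega, ?_⟩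
      change s (m + 1 - 1 - (m - j - 1)) = s (1 + j)
      congr 1
      omega
  rw [h1, sy_succ, h2]
  simp

/-- The product `s 0 * ⋯ * s (k - 1)`. -/
def wd (s : ℕ → R) : ℕ → R
  | 0 => 1
  | k + 1 => wd s k * s k

lemma wd_comm {s : ℕ → R} (x : R) (k : ℕ) (h : ∀ j, j < k → x * s j = s j * x) :
    x * wd s k = wd s k * x := by
  induction k with
  | zero => simp [wd]
  | succ k ih =>
    rw [wd, ← mul_assoc, ih fun j hj => h j (by omega), mul_assoc, h k (by omega), mul_assoc]

lemma wd_gen {s : ℕ → R} {n : ℕ} (hC : Cox s n) (k : ℕ) (hk : k ≤ n) (j : ℕ) (hj : j + 1 < k) :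
    wd s k * s j = s (j + 1) * wd s k := by
  induction k with
  | zero => omega
  | succ k ih =>
    by_cases h : j + 1 = k
    · subst h
      have h1 : s (j + 1) * wd s j = wd s j * s (j + 1) :=
        wd_comm _ _ fun i hi => (hC.cm i (j + 1) (by omega) (by omega)).symm
      have h2 := hC.br j (by omega)
      calc wd s j * s j * s (j + 1) * s j = wd s j * (s j * s (j + 1) * s j) := by
            simp only [mul_assoc]
        _ = (wd s j * s (j + 1)) * s j * s (j + 1) := by rw [h2]; simp only [mul_assoc]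
        _ = _ := by rw [← h1]; simp only [mul_assoc, wd]
    · have h1 := ih (by omega) (by omega)
      have h2 := hC.cm j k (by omega) (by omega)
      rw [wd, mul_assoc, ← h2, ← mul_assoc, h1, mul_assoc]

lemma wd_sy {η : ℚ} {s : ℕ → R} {n : ℕ} (hC : Cox s n) (k : ℕ) (hk : k ≤ n) (m : ℕ)
    (hm : m ≤ k) : wd s k * sy η s m = sy η (sh 1 s) m * wd s k := by
  induction m with
  | zero => simp [sy_zero]
  | succ m ih =>
    rcases m with - | m
    · simp [sy_one]
    · have h1 := ih (by omega)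
      have h2 := wd_gen hC k hk m (by omega)
      rw [sy_succ, sy_succ, mul_smul_comm, smul_mul_assoc, mul_add, add_mul, mul_smul_comm,
        smul_mul_assoc, h1]
      congr 3
      calc wd s k * (sy η s (m + 1) * s m * sy η s (m + 1))
          = (wd s k * sy η s (m + 1)) * s m * sy η s (m + 1) := by simp only [mul_assoc]
        _ = sy η (sh 1 s) (m + 1) * (wd s k * s m) * sy η s (m + 1) := by
            rw [h1]; simp only [mul_assoc]
        _ = sy η (sh 1 s) (m + 1) * s (m + 1) * (wd s k * sy η s (m + 1)) := by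
            rw [h2]; simp only [mul_assoc]
        _ = _ := by
            rw [h1, sh, add_comm 1 m]
            simp only [mul_assoc]

end

end Pool.Agent.K3h63.PD
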