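import Pool.Agent.Y112.KD.Asym

/-!
# Symmetric and exterior powers
-/

set_option autoImplicit false

open CategoryTheory Limits MonoidalCategory
open Pool.Agent.Y112.KD

namespace Pool.Agent.K3h63.PD

universe v u

section

variable {C : Type u} [Category.{v} C] [MonoidalCategory C] [SymmetricCategory C]
  [Preadditive C] [Linear ℚ C]

/-- The morphism `r : M ⊗ ⋯ ⊗ M ⟶ P` (`n` factors) exhibits `P` as the `n`-th symmetric power of `M`
(for `η = 1`) or as the `n`-th exterior power of `M` (for `η = -1`): it is the universal morphism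
with `r ∘ s = η r` for all exchanges `s` of two neighbouring factors. In a `ℚ`-linear category `P` is
then the image of the idempotent `(1 / n!) ∑ σ` or `(1 / n!) ∑ sgn(σ) σ` of `M ⊗ ⋯ ⊗ M`. -/
structure IsPower (η : ℚ) {M P : C} {n : ℕ} (r : tp M n ⟶ P) : Prop where
  symm : ∀ s, IsSwap M n s → s ≫ r = η • r
  fac : ∀ {Z : C} (h : tp M n ⟶ Z), (∀ s, IsSwap M n s → s ≫ h = η • h) →
    ∃! g : P ⟶ Z, r ≫ g = h

end

end Pool.Agent.K3h63.PD
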