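import Pool.Agent.K3h63.PD.Chain
import Pool.Agent.Y112.SC.Main

/-!
# Kimura finite-dimensionality descends along exterior and symmetric powers
-/

set_option autoImplicit false
set_option linter.unusedSectionVars false
set_option linter.unusedSimpArgs false
set_option backward.isDefEq.respectTransparency false
set_option backward.defeqAttrib.useBackward true

open CategoryTheory Limits MonoidalCategory
open Pool.Agent.Y112.SR Pool.Agent.Y112.KD Pool.Agent.Y112.SC Pool.Agent.R905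

namespace Pool.Agent.K3h63.PD

universe v u w

section

variable {C : Type u} [Category.{v} C] [Preadditive C] [Linear ℚ C] [MonoidalCategory C]
  [MonoidalPreadditive C] [MonoidalLinear ℚ C] [SymmetricCategory C]
  [RightRigidCategory C] [IsIdempotentComplete C] {K : Type w} [Field K]
  (R : SuperRealisation C K)

include R in
/-- A Kimura finite object of pure parity has a Kimura finite tensor square. -/
lemma kf_square (hU : UnitQ C) {D : C} (hD : IsKimuraFinite D) {c : ℚ} (hc : c = 1 ∨ c = -1)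
    (hp : R.par D = (c : K) • 𝟙 _) : IsKimuraFinite (D ⊗ D) := by
  obtain ⟨n, hn⟩ := hD.summand R hU (𝟙 D) (𝟙 D) (by simp) hc hp
  have hcc : -c * -c = 1 := by rcases hc with rfl | rfl <;> norm_num
  have hn' := asym_mono hcc D hn
  obtain ⟨N, hN⟩ := tensor_kill hcc hcc hn' hn'
  rw [hcc] at hN
  exact kf_of_asym (Or.inr rfl) hN

include R in
/-- The descent for objects of pure parity. -/
theorem kf_of_power (hU : UnitQ C) {X : C} {d : ℚ} (hd : d = 1 ∨ d = -1)
    (hX : R.par X = (d : K) • 𝟙 _) {η : ℚ} (hη : η = 1 ∨ η = -1) :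
    ∀ (m : ℕ) {D : C} (j : D ⟶ tp X (m + 1)) (q : tp X (m + 1) ⟶ D), j ≫ q = 𝟙 D →
      q ≫ j = asym η X (m + 1) → IsKimuraFinite D → IsKimuraFinite X := by
  have hc := R_charZero R
  have hηη : η * η = 1 := by rcases hη with rfl | rfl <;> norm_num
  intro m
  induction m with
  | zero =>
    intro D j q h1 h2 hD
    refine IsKimuraFinite.retract R hU hD ((λ_ X).inv ≫ q) (j ≫ (λ_ X).hom) ?_
    have h3 : q ≫ j = 𝟙 (𝟙_ C ⊗ X) := h2
    calc ((λ_ X).inv ≫ q) ≫ j ≫ (λ_ X).hom = (λ_ X).inv ≫ (q ≫ j) ≫ (λ_ X).hom := by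
          simp only [Category.assoc]
      _ = 𝟙 X := by rw [h3]; simp
  | succ m ih =>
    intro D j q h1 h2 hD
    by_cases h0 : IsZero (R.H.obj D)
    · have h3 := (hD.homNil R hU).id_eq_zero h0
      refine kf_of_asym hη (n := m + 2) ?_
      rw [← h2, ← Category.id_comp j, h3, zero_comp, comp_zero]
    obtain ⟨P, i, r, k1, k2⟩ := IsIdempotentComplete.idempotents_split (tp X (m + 1))
      (asym η X (m + 1)) (asym_idem hηη X (m + 1))
    obtain ⟨Q, i', r', k1', k2'⟩ := IsIdempotentComplete.idempotents_split (tp X (m + 1 + 2))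
      (asym η X (m + 1 + 2)) (asym_idem hηη X (m + 1 + 2))
    have hP0 : ¬ IsZero (R.H.obj P) := by
      intro hz
      exact h0 (isZero_retract R _ _ (power_succ_retract hηη (m + 1) i r k2 j q h1 h2)
        (isZero_tensor_left R hz))
    obtain ⟨c, hcd, hcp⟩ : ∃ c : ℚ, (c = 1 ∨ c = -1) ∧ R.par D = (c : K) • 𝟙 _ := by
      refine ⟨d ^ (m + 2), ?_, ?_⟩
      · rcases hd with rfl | rfl
        · left
          rw [one_pow]
        · exact neg_one_pow_eq_or ℚ (m + 2)
      · push_cast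
        exact par_summand R (par_tp R hX (m + 2)) j q h1
    have hDD := kf_square R hU hD hcd hcp
    obtain ⟨a, b, hab⟩ := power_retract hηη (m + 1) i r k1 k2 i' r' k1' k2' j q h2
    have hPQ := IsKimuraFinite.retract R hU hDD a b hab
    by_cases hQ : IsZero (R.H.obj Q)
    · -- the next power vanishes
      have h3 := (hPQ.homNil R hU).id_eq_zero (isZero_tensor_right R hQ)
      have h4 : (𝟙 Q ⊗ₘ 𝟙 P : Q ⊗ P ⟶ Q ⊗ P) = 0 := by
        have h5 : (𝟙 Q ⊗ₘ 𝟙 P : Q ⊗ P ⟶ Q ⊗ P) =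
            (β_ Q P).hom ≫ 𝟙 (P ⊗ Q) ≫ (β_ P Q).hom := by simp
        rw [h5, h3]
        simp
      have h5 := ptr_tensor (𝟙 Q) (𝟙 P) (trq hU P (1 : End P)) (trq_spec hU _)
      rw [h4] at h5
      have h6 : ptr (0 : Q ⊗ P ⟶ Q ⊗ P) = 0 := (ptrL Q P).map_zero
      rw [h6] at h5
      obtain ⟨c', hcd', hcp'⟩ : ∃ c : ℚ, (c ≠ 0) ∧ R.par P = (c : K) • 𝟙 _ := by
        refine ⟨d ^ (m + 1), ?_, ?_⟩
        · rcases hd with rfl | rfl
          · simp
          · exact pow_ne_zero _ (by norm_num)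
        · push_cast
          exact par_summand R (par_tp R hX (m + 1)) i r k1
      have h7 : trq hU P (1 : End P) ≠ 0 := by
        rw [trq_one R hU c' hcp']
        exact mul_ne_zero hcd' (by exact_mod_cast finrank_ne_zero R hP0)
      have h8 : 𝟙 Q = 0 := (smul_eq_zero.1 h5.symm).resolve_left h7
      refine kf_of_asym hη (n := m + 1 + 2) ?_
      rw [← k2', ← Category.id_comp i', h8, zero_comp, comp_zero]
    · exact ih i r k1 k2 (isKimuraFinite_left R hU hP0 hQ hPQ)

include R in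
/-- Kimura finite-dimensionality descends along exterior and symmetric powers. -/
theorem descent (hU : UnitQ C) {η : ℚ} (hη : η = 1 ∨ η = -1) {M P : C} {n : ℕ} (hn : 1 ≤ n)
    (i : P ⟶ tp M n) (r : tp M n ⟶ P) (hir : i ≫ r = 𝟙 P) (hri : r ≫ i = asym η M n)
    (hP : IsKimuraFinite P) : IsKimuraFinite M := by
  have hc := R_charZero R
  have hηη : η * η = 1 := by rcases hη with rfl | rfl <;> norm_num
  obtain ⟨n, rfl⟩ : ∃ k, n = k + 1 := ⟨n - 1, by omega⟩
  by_cases h0 : IsZero (R.H.obj P)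
  · have h3 := (hP.homNil R hU).id_eq_zero h0
    refine kf_of_asym hη (n := n + 1) ?_
    rw [← hri, ← Category.id_comp i, h3, zero_comp, comp_zero]
  have hnil : HomNil R M := homNil_of_power hU hηη n i r hir hri (hP.homNil R hU)
  have hC : R.CPlus M := cplus_of_schur R (by omega) ⟨i, r, hir, by
    rw [hri]
    exact asym_adjoin η M (n + 1)⟩ h0 (hP.cplus R)
  obtain ⟨E, O, a, b, a', b', k1, k2, k3, hE, hO⟩ := exists_parts R hC hnil
  have key : ∀ (X : C) (x : X ⟶ M) (y : M ⟶ X) (d : ℚ), x ≫ y = 𝟙 X → (d = 1 ∨ d = -1) →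
      R.par X = (d : K) • 𝟙 _ → ∃ N, asym (-d) X N = 0 := by
    intro X x y d hxy hd hX
    obtain ⟨D, j, q, h1, h2⟩ := IsIdempotentComplete.idempotents_split (tp X (n + 1))
      (asym η X (n + 1)) (asym_idem hηη X (n + 1))
    have hD : IsKimuraFinite D := by
      refine IsKimuraFinite.retract R hU hP (j ≫ tpm x (n + 1) ≫ r) (i ≫ tpm y (n + 1) ≫ q) ?_
      have e1 : tpm x (n + 1) ≫ tpm y (n + 1) = 𝟙 _ := by rw [tpm_comp, hxy, tpm_id]
      calc (j ≫ tpm x (n + 1) ≫ r) ≫ i ≫ tpm y (n + 1) ≫ q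
          = j ≫ (tpm x (n + 1) ≫ (r ≫ i)) ≫ tpm y (n + 1) ≫ q := by
            simp only [Category.assoc]
        _ = j ≫ asym η X (n + 1) ≫ (tpm x (n + 1) ≫ tpm y (n + 1)) ≫ q := by
            rw [hri, asym_nat]
            simp only [Category.assoc]
        _ = (j ≫ q) ≫ (j ≫ q) := by
            rw [e1, ← h2]
            simp only [Category.assoc, Category.id_comp]
        _ = 𝟙 D := by rw [h1, Category.comp_id]
    have hXk := kf_of_power R hU hd hX hη n j q h1 h2 hD
    exact hXk.summand R hU (𝟙 X) (𝟙 X) (by simp) hd hX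
  obtain ⟨N, hN⟩ := key E a b 1 k1 (Or.inl rfl) (by rw [hE]; norm_num)
  obtain ⟨N', hN'⟩ := key O a' b' (-1) k2 (Or.inr rfl) (by rw [hO]; norm_num)
  rw [neg_neg] at hN'
  exact (isKimuraFinite_iff M).2 ⟨E, O, a, b, a', b', k1, k2, k3, ⟨N, hN⟩, N', hN'⟩

end

end Pool.Agent.K3h63.PD
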