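import Pool.Agent.K3h63.PD.Defs
import Pool.Agent.K3h63.PD.Main

/-!
# Kimura finite-dimensionality descends along exterior and symmetric powers
-/

set_option autoImplicit false
set_option linter.unusedSectionVars false
set_option backward.isDefEq.respectTransparency false
set_option backward.defeqAttrib.useBackward true

open CategoryTheory Limits MonoidalCategory
open Pool.Agent.Y112.SR Pool.Agent.Y112.KD Pool.Agent.Y112.SC Pool.Agent.R905

namespace Pool.Agent.K3h63.PD

universe v u w

section

variable {C : Type u} [Category.{v} C] [MonoidalCategory C] [SymmetricCategory C]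
  [Preadditive C] [Linear ℚ C] [MonoidalPreadditive C] [MonoidalLinear ℚ C]

/-- The universal morphism splits. -/
lemma IsPower.split {η : ℚ} (hη : η * η = 1) {M P : C} {n : ℕ} {r : tp M n ⟶ P}
    (h : IsPower η r) : ∃ i : P ⟶ tp M n, i ≫ r = 𝟙 P ∧ r ≫ i = asym η M n := by
  obtain ⟨i, hi, -⟩ := h.fac (asym η M n) (fun s hs => (swap_asym hη M hs).1)
  refine ⟨i, ?_, hi⟩
  obtain ⟨g, -, hg⟩ := h.fac r h.symm
  have h1 : r ≫ (i ≫ r) = r := by
    rw [← Category.assoc, hi]
    exact asym_comp hη r h.symm
  rw [hg (i ≫ r) h1, hg (𝟙 P) (Category.comp_id r)]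

end

section

variable {C : Type u} [Category.{v} C] [Preadditive C] [Linear ℚ C] [MonoidalCategory C]
  [MonoidalPreadditive C] [MonoidalLinear ℚ C] [SymmetricCategory C]
  [RightRigidCategory C] [IsIdempotentComplete C] {K : Type w} [Field K]
  (R : SuperRealisation C K)

include R in
/-- If a symmetric or exterior power is Kimura finite then the object is Kimura finite. -/
theorem kimura_of_power (hU : UnitQ C) {η : ℚ} (hη : η = 1 ∨ η = -1) {M P : C} {n : ℕ}
    (hn : 1 ≤ n) {r : tp M n ⟶ P} (hr : IsPower η r) (h : IsKimuraFinite P) :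
    IsKimuraFinite M := by
  have hηη : η * η = 1 := by rcases hη with rfl | rfl <;> norm_num
  obtain ⟨i, h1, h2⟩ := hr.split hηη
  exact descent R hU hη hn i r h1 h2 h

end

end Pool.Agent.K3h63.PD
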