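import Pool.Agent.K3h63.PD.Cox

/-!
# Comparison of the idempotents of two-block Young subgroups
-/

set_option autoImplicit false
set_option linter.unusedSectionVars false

namespace Pool.Agent.K3h63.PD

section

variable {R : Type*} [Ring R] [Algebra ℚ R]

/-- The idempotent of the blocks of the first `a` and the last `L - a` letters. -/
noncomputable def ee (η : ℚ) (s : ℕ → R) (L a : ℕ) : R := sy η s a * sy η (sh a s) (L - a)

variable {η : ℚ} {s : ℕ → R} {L : ℕ}

lemma blocks_comm (hC : Cox s (L - 1)) (a : ℕ) :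
    sy η s a * sy η (sh a s) (L - a) = sy η (sh a s) (L - a) * sy η s a := by
  apply sy_comm
  intro j hj
  exact (sy_comm (sh a s j) a fun i hi => (hC.cm i (a + j) (by omega) (by omega)).symm).symm

lemma ee_idem (hη : η * η = 1) (hC : Cox s (L - 1)) (a : ℕ) (ha : a ≤ L) :
    ee η s L a * ee η s L a = ee η s L a := by
  have h1 := sy_idem hη a (hC.mono (by omega))
  have h2 : sy η (sh a s) (L - a) * sy η (sh a s) (L - a) = sy η (sh a s) (L - a) := by
    rcases Nat.eq_or_lt_of_le ha with h | h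
    · have h3 : L - a = 0 := by omega
      rw [h3, sy_zero, mul_one]
    · exact sy_idem hη (L - a) (hC.shift a _ (by omega))
  have h3 := blocks_comm (η := η) hC a
  rw [ee]
  calc sy η s a * sy η (sh a s) (L - a) * (sy η s a * sy η (sh a s) (L - a))
      = sy η s a * (sy η (sh a s) (L - a) * sy η s a) * sy η (sh a s) (L - a) := by
        simp only [mul_assoc]
    _ = (sy η s a * sy η s a) * (sy η (sh a s) (L - a) * sy η (sh a s) (L - a)) := by
        rw [← h3]; simp only [mul_assoc]
    _ = _ := by rw [h1, h2]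

/-- Up and down. -/
lemma ee_up (hη : η * η = 1) (hC : Cox s (L - 1)) (a : ℕ) (ha : a + 2 ≤ L) :
    ((a + 1 : ℕ) + 1 : ℚ) • (ee η s L (a + 1) * ee η s L (a + 2) * ee η s L (a + 1)) =
      ee η s L (a + 1) + (η * ((a + 1 : ℕ) : ℚ)) •
        (ee η s L (a + 1) * s a * ee η s L (a + 1)) := by
  have ha' : ((a + 1 : ℕ) : ℚ) + 1 ≠ 0 := by positivity
  have hid := ee_idem hη hC (a + 1) (by omega)
  set A := sy η s (a + 1) with hA
  set B := sy η (sh (a + 1) s) (L - (a + 1)) with hB
  set B' := sy η (sh (a + 2) s) (L - (a + 2)) with hB'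
  have h1 : A * B = B * A := blocks_comm hC (a + 1)
  have h2 : sy η s (a + 2) * B' = B' * sy η s (a + 2) := blocks_comm hC (a + 2)
  -- absorption of the smaller block
  have h3 : B' * B = B := by
    rw [hB']
    apply sy_mul_eq hη
    intro j hj
    have h4 := (gen_sy hη (L - (a + 1)) (s := sh (a + 1) s) (hC.shift (a + 1) _ (by omega)) (j + 1)
      (by omega)).1
    have h5 : sh (a + 1) s (j + 1) = sh (a + 2) s j := by
      simp only [sh]
      congr 1
      omega
    rwa [h5] at h4
  have hAA : A * A = A := sy_idem hη (a + 1) (hC.mono (by omega))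
  have hcomp : ee η s L (a + 1) * ee η s L (a + 2) * ee η s L (a + 1) =
      A * B * sy η s (a + 2) * (A * B) := by
    rw [ee, ee, ← hA, ← hB, ← hB']
    calc A * B * (sy η s (a + 2) * B') * (A * B) = A * B * sy η s (a + 2) * (B' * B * A) := by
          rw [h1]; simp only [mul_assoc]
      _ = _ := by rw [h3, h1]
  rw [hcomp, sy_succ, mul_smul_comm, smul_mul_assoc, smul_smul, mul_inv_cancel₀ ha', one_smul,
    ← hA, mul_add, add_mul, mul_smul_comm, smul_mul_assoc]
  have hE : ee η s L (a + 1) = A * B := rfl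
  rw [hE] at hid ⊢
  congr 1
  · calc A * B * A * (A * B) = A * B * (A * A * B) := by simp only [mul_assoc]
      _ = A * B * (A * B) := by rw [hAA]
      _ = _ := hid
  · congr 1
    calc A * B * (A * s a * A) * (A * B) = (A * B * A) * s a * (A * A * B) := by
          simp only [mul_assoc]
      _ = (B * A * A) * s a * (A * B) := by rw [hAA, h1]
      _ = _ := by rw [mul_assoc B, hAA, h1]

/-- Down and up. -/
lemma ee_down (hη : η * η = 1) (hC : Cox s (L - 1)) (a : ℕ) (ha : a + 2 ≤ L) :
    (((L - (a + 1) : ℕ) : ℚ) + 1) • (ee η s L (a + 1) * ee η s L a * ee η s L (a + 1)) =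
      ee η s L (a + 1) + (η * ((L - (a + 1) : ℕ) : ℚ)) •
        (ee η s L (a + 1) * s a * ee η s L (a + 1)) := by
  obtain ⟨b, hb⟩ : ∃ b, L = a + 2 + b := ⟨L - (a + 2), by omega⟩
  have hid := ee_idem hη hC (a + 1) (by omega)
  have e1 : L - (a + 1) = b + 1 := by omega
  have e2 : L - a = b + 2 := by omega
  have hb' : ((b + 1 : ℕ) : ℚ) + 1 ≠ 0 := by positivity
  set A := sy η s (a + 1) with hA
  set A' := sy η s a with hA'
  set B := sy η (sh (a + 1) s) (b + 1) with hB
  have h1 : A * B = B * A := by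
    have := blocks_comm (η := η) hC (a + 1)
    rwa [e1] at this
  have h2 : A' * sy η (sh a s) (b + 2) = sy η (sh a s) (b + 2) * A' := by
    have := blocks_comm (η := η) hC a
    rwa [e2] at this
  have h3 : A * A' = A := (sy_absorb hη a (hC.mono (by omega))).2
  have hBB : B * B = B := sy_idem hη (b + 1) (hC.shift (a + 1) _ (by omega))
  have hE : ee η s L (a + 1) = A * B := by rw [ee, e1]
  have hE' : ee η s L a = A' * sy η (sh a s) (b + 2) := by rw [ee, e2]
  rw [hE] at hid ⊢
  rw [hE', e1]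
  have hcomp : A * B * (A' * sy η (sh a s) (b + 2)) * (A * B) =
      A * B * sy η (sh a s) (b + 2) * (A * B) := by
    calc A * B * (A' * sy η (sh a s) (b + 2)) * (A * B)
        = B * (A * A') * sy η (sh a s) (b + 2) * (A * B) := by rw [h1]; simp only [mul_assoc]
      _ = _ := by rw [h3, h1]
  rw [hcomp, sy_left hη b (hC.shift a _ (by omega)), sh_sh, mul_smul_comm, smul_mul_assoc,
    smul_smul, mul_inv_cancel₀ hb', one_smul, ← hB, mul_add, add_mul, mul_smul_comm,
    smul_mul_assoc]
  congr 1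
  · calc A * B * B * (A * B) = A * (B * B) * (A * B) := by simp only [mul_assoc]
      _ = A * B * (A * B) := by rw [hBB]
      _ = _ := hid
  · congr 1
    have e4 : sh a s 0 = s a := rfl
    rw [e4]
    calc A * B * (B * s a * B) * (A * B) = A * (B * B) * s a * (B * (A * B)) := by
          simp only [mul_assoc]
      _ = A * B * s a * (B * (B * A)) := by rw [hBB, h1]
      _ = A * B * s a * (A * B) := by rw [← mul_assoc B, hBB, h1]

/-- The relation of the two compositions. -/
lemma ee_rel (hη : η * η = 1) (hC : Cox s (L - 1)) (a : ℕ) (ha : a + 2 ≤ L) :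
    (((L - (a + 1) : ℕ) : ℚ) * ((a + 1 : ℕ) + 1 : ℚ)) •
        (ee η s L (a + 1) * ee η s L (a + 2) * ee η s L (a + 1)) =
      (((L - (a + 1) : ℕ) : ℚ) - ((a + 1 : ℕ) : ℚ)) • ee η s L (a + 1) +
      (((a + 1 : ℕ) : ℚ) * (((L - (a + 1) : ℕ) : ℚ) + 1)) •
        (ee η s L (a + 1) * ee η s L a * ee η s L (a + 1)) := by
  have hu := ee_up hη hC a ha
  have hd := ee_down hη hC a ha
  rw [mul_smul, hu, mul_smul ((a + 1 : ℕ) : ℚ) (((L - (a + 1) : ℕ) : ℚ) + 1), hd]
  module

/-- The comparison is invertible below the middle. -/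
lemma corner (hη : η * η = 1) (n : ℕ) (hC : Cox s (2 * n - 1)) (a : ℕ) (ha : a < n) :
    ∀ c : ℚ, 0 ≤ c → ∃ g : R, g = ee η s (2 * n) a * g ∧
      (c • ee η s (2 * n) a + (((2 * n - a : ℕ) : ℚ) * ((a : ℚ) + 1)) •
        (ee η s (2 * n) a * ee η s (2 * n) (a + 1) * ee η s (2 * n) a)) * g =
      ee η s (2 * n) a := by
  induction a with
  | zero =>
    intro c hc
    have h0 : ee η s (2 * n) 0 = sy η s (2 * n) := by
      rw [ee, sy_zero, one_mul, sh_zero, Nat.sub_zero]
    have h1 : ee η s (2 * n) 1 = sy η (sh 1 s) (2 * n - 1) := by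
      rw [ee, sy_one, one_mul]
    have hid := ee_idem hη hC 0 (by omega)
    have h2 : ee η s (2 * n) 0 * ee η s (2 * n) 1 = ee η s (2 * n) 0 := by
      rw [h0, h1]
      apply mul_sy_eq hη
      intro j hj
      exact (gen_sy hη (2 * n) hC (1 + j) (by omega)).2
    have hL : c + ((2 * n : ℕ) : ℚ) ≠ 0 := by
      have : (0 : ℚ) < ((2 * n : ℕ) : ℚ) := by
        have : 0 < 2 * n := by omega
        exact_mod_cast this
      positivity
    refine ⟨(c + ((2 * n : ℕ) : ℚ))⁻¹ • ee η s (2 * n) 0, ?_, ?_⟩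
    · rw [mul_smul_comm, hid]
    · rw [zero_add, h2, hid, Nat.sub_zero, Nat.cast_zero, zero_add, mul_one, ← add_smul,
        smul_mul_smul_comm, hid, mul_inv_cancel₀ hL, one_smul]
  | succ a ih =>
    intro c hc
    have hrel := ee_rel hη hC a (by omega)
    have hid := ee_idem hη hC (a + 1) (by omega)
    have hid' := ee_idem hη hC a (by omega)
    set x := ee η s (2 * n) (a + 1) with hx
    set z := ee η s (2 * n) a with hz
    set lam : ℚ := ((a + 1 : ℕ) : ℚ) * (((2 * n - (a + 1) : ℕ) : ℚ) + 1) with hlam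
    set c' : ℚ := c + (((2 * n - (a + 1) : ℕ) : ℚ) - ((a + 1 : ℕ) : ℚ)) with hc'
    have hpos : 0 < c' := by
      have h1 : ((a + 1 : ℕ) : ℚ) < ((2 * n - (a + 1) : ℕ) : ℚ) := by
        have : a + 1 < 2 * n - (a + 1) := by omega
        exact_mod_cast this
      rw [hc']
      linarith
    obtain ⟨h, hh1, hh2⟩ := ih (by omega) c' hpos.le
    have e1 : ((2 * n - a : ℕ) : ℚ) * ((a : ℚ) + 1) = lam := by
      have : ((2 * n - a : ℕ) : ℚ) = ((2 * n - (a + 1) : ℕ) : ℚ) + 1 := by
        have : 2 * n - a = 2 * n - (a + 1) + 1 := by omega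
        rw [this]
        push_cast
        rfl
      rw [this, hlam]
      push_cast
      ring
    rw [e1] at hh2
    refine ⟨c'⁻¹ • (x - lam • (x * h * x)), ?_, ?_⟩
    · rw [mul_smul_comm, mul_sub, hid, mul_smul_comm, ← mul_assoc, ← mul_assoc, hid]
    · have e2 : (c • x + (((2 * n - (a + 1) : ℕ) : ℚ) * (((a + 1 : ℕ) : ℚ) + 1)) •
          (x * ee η s (2 * n) (a + 1 + 1) * x)) = c' • x + lam • (x * z * x) := by
        rw [hrel, hc', add_smul c]
        abel
      rw [e2, mul_smul_comm]
      have e3 : (c' • x + lam • (x * z * x)) * (x - lam • (x * h * x)) = c' • x := by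
        have e4 : c' • (x * h) + lam • (x * z * (x * h)) = x * z := by
          have e5 : x * ((c' • z + lam • (z * x * z)) * h) = x * z := by rw [hh2]
          have e8 : x * ((c' • z + lam • (z * x * z)) * h) =
              c' • (x * (z * h)) + lam • (x * z * (x * (z * h))) := by
            simp only [add_mul, mul_add, smul_mul_assoc, mul_smul_comm, mul_assoc]
          rw [← hh1] at e8
          rw [← e8, e5]
        have e6 : (c' • x + lam • (x * z * x)) * (x - lam • (x * h * x)) =
            c' • (x * x) + lam • (x * z * (x * x)) -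
              lam • ((c' • (x * x * h) + lam • (x * z * (x * x * h))) * x) := by
          simp only [add_mul, mul_sub, mul_smul_comm, smul_mul_assoc, smul_add, mul_assoc]
        rw [e6, hid, e4, add_sub_assoc, sub_self, add_zero]
      rw [e3, smul_smul, inv_mul_cancel₀ hpos.ne', one_smul]

/-- The block idempotent `(n - 1, n + 1)` factors through the block idempotent `(n, n)`. -/
theorem retr (hη : η * η = 1) (n : ℕ) (hn : 1 ≤ n) (hC : Cox s (2 * n - 1)) :
    ∃ g : R, ee η s (2 * n) (n - 1) * ee η s (2 * n) n * g = ee η s (2 * n) (n - 1) := by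
  obtain ⟨g, hg1, hg2⟩ := corner hη n hC (n - 1) (by omega) 0 le_rfl
  rw [zero_smul, zero_add, Nat.sub_add_cancel hn] at hg2
  refine ⟨(((2 * n - (n - 1) : ℕ) : ℚ) * (((n - 1 : ℕ) : ℚ) + 1)) •
    (ee η s (2 * n) (n - 1) * g), ?_⟩
  rw [mul_smul_comm, ← mul_assoc, ← smul_mul_assoc]
  exact hg2

end

end Pool.Agent.K3h63.PD
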