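import Pool.Agent.K3h63.PD.Ideal
import Pool.Agent.K3h63.PD.Retr
import Pool.Agent.Y112.KD.Zip

/-!
# The exchanges of the factors of a tensor power as Coxeter generators
-/

set_option autoImplicit false
set_option linter.unusedSectionVars false
set_option linter.unusedSimpArgs false

open CategoryTheory Limits MonoidalCategory
open Pool.Agent.Y112.KD

namespace Pool.Agent.K3h63.PD

universe v u

section

variable {C : Type u} [Category.{v} C] [MonoidalCategory C] [SymmetricCategory C]
  [Preadditive C] [Linear ℚ C] [MonoidalPreadditive C] [MonoidalLinear ℚ C]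

/-- The exchange of the factors `i + 1` and `i + 2` of the tensor power. -/
def sg (X : C) : ∀ N : ℕ, ℕ → End (tp X N)
  | 0, _ => 1
  | 1, _ => 1
  | N + 2, i => if i = N then sw (tp X N) X else (show tp X (N + 1) ⟶ tp X (N + 1) from
      sg X (N + 1) i) ▷ X

lemma sg_last (X : C) (N : ℕ) : sg X (N + 2) N = sw (tp X N) X := by
  simp [sg]

lemma sg_lift (X : C) (N i : ℕ) (h : i ≠ N) : sg X (N + 2) i =
    (show tp X (N + 1) ⟶ tp X (N + 1) from sg X (N + 1) i) ▷ X := by
  simp [sg, h]

/-- Whiskering as a map of endomorphism rings. -/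
def wr (X : C) (N : ℕ) : End (tp X N) →ₐ[ℚ] End (tp X (N + 1)) where
  toFun f := (show tp X N ⟶ tp X N from f) ▷ X
  map_one' := id_whiskerRight _ _
  map_mul' f g := comp_whiskerRight _ _ _
  map_zero' := MonoidalPreadditive.zero_whiskerRight
  map_add' f g := MonoidalPreadditive.add_whiskerRight _ _
  commutes' c := by
    have h1 : ∀ Y : C, algebraMap ℚ (End Y) c = c • (𝟙 Y) := fun Y => by
      rw [Algebra.algebraMap_eq_smul_one]
      rfl
    change (algebraMap ℚ (End (tp X N)) c : tp X N ⟶ tp X N) ▷ X = _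
    rw [h1, h1, MonoidalLinear.smul_whiskerRight, id_whiskerRight]

lemma sg_wr (X : C) (N i : ℕ) (h : i ≠ N) : sg X (N + 2) i = wr X (N + 1) (sg X (N + 1) i) :=
  sg_lift X N i h

lemma cox_sg (X : C) (N : ℕ) : Cox (sg X (N + 1)) N := by
  induction N with
  | zero => exact ⟨fun i hi => absurd hi (by omega), fun i hi => absurd hi (by omega),
      fun i j _ hj => absurd hj (by omega)⟩
  | succ N ih =>
    constructor
    · intro i hi
      by_cases h : i = N
      · subst h
        rw [sg_last]
        exact sw_sw _ _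
      · rw [sg_wr X N i h, ← map_mul, ih.sq i (by omega), map_one]
    · intro i hi
      by_cases h : i + 1 = N
      · subst h
        rw [sg_last, sg_wr X (i + 1) i (by omega), sg_last]
        exact (braid (tp X i) X).symm
      · rw [sg_wr X N i (by omega), sg_wr X N (i + 1) h, ← map_mul, ← map_mul,
          ih.br i (by omega), map_mul, map_mul]
    · intro i j hij hj
      by_cases h : j = N
      · subst h
        obtain ⟨N', rfl⟩ : ∃ N', j = N' + 2 := ⟨j - 2, by omega⟩
        rw [sg_last, sg_wr X (N' + 2) i (by omega), sg_wr X (N' + 1) i (by omega)]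
        exact (sw_nat_left (X := X) (show tp X (N' + 2) ⟶ tp X (N' + 2) from
          sg X (N' + 2) i)).symm
      · rw [sg_wr X N i (by omega), sg_wr X N j h, ← map_mul, ih.cm i j hij (by omega), map_mul]

end

section

variable {R R' : Type*} [Ring R] [Algebra ℚ R] [Ring R'] [Algebra ℚ R']

lemma sy_congr {η : ℚ} {s r : ℕ → R} (m : ℕ) (h : ∀ j, j + 1 < m → s j = r j) :
    sy η s m = sy η r m := by
  induction m with
  | zero => rfl
  | succ m ih =>
    rcases m with - | m
    · rfl
    · rw [sy_succ, sy_succ, ih fun j hj => h j (by omega), h m (by omega)]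

lemma map_sy {η : ℚ} (f : R →ₐ[ℚ] R') (s : ℕ → R) (m : ℕ) :
    f (sy η s m) = sy η (fun j => f (s j)) m := by
  induction m with
  | zero => exact map_one f
  | succ m ih =>
    rcases m with - | m
    · exact map_one f
    · rw [sy_succ, sy_succ, map_smul, map_add, map_smul, map_mul, map_mul, ih]

end

section

variable {C : Type u} [Category.{v} C] [MonoidalCategory C] [SymmetricCategory C]
  [Preadditive C] [Linear ℚ C] [MonoidalPreadditive C] [MonoidalLinear ℚ C]

lemma sy_wr (η : ℚ) (X : C) (N m : ℕ) (h : m ≤ N) :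
    sy η (sg X (N + 1)) m = wr X N (sy η (sg X N) m) := by
  rcases N with - | N
  · obtain rfl : m = 0 := by omega
    exact (map_one _).symm
  · rw [map_sy]
    exact sy_congr m fun j hj => sg_wr X N j (by omega)

lemma sy_asym (η : ℚ) (X : C) (N : ℕ) : sy η (sg X N) N = asym η X N := by
  induction N with
  | zero => rfl
  | succ N ih =>
    rcases N with - | N
    · rfl
    · rw [sy_succ, sy_wr η X (N + 1) (N + 1) le_rfl, ih, sg_last]
      rfl

lemma sy_zero_of_asym {η : ℚ} {X : C} {a : ℕ} (h : asym η X a = 0) (N : ℕ) (hN : a ≤ N) :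
    sy η (sg X N) a = 0 := by
  induction N, hN using Nat.le_induction with
  | base => exact (sy_asym η X a).trans h
  | succ N hN ih => rw [sy_wr η X N a hN, ih, map_zero]

lemma zip_mono (A B : C) (n : ℕ) : ∃ u : tp A n ⊗ tp B n ⟶ tp (A ⊗ B) n, zip A B n ≫ u = 𝟙 _ := by
  induction n with
  | zero => exact ⟨(λ_ (𝟙_ C)).hom, by simp [zip]⟩
  | succ n ih =>
    obtain ⟨u, hu⟩ := ih
    refine ⟨tensorδ (tp A n) (tp B n) A B ≫ u ▷ (A ⊗ B), ?_⟩
    rw [zip_succ, Category.assoc, tensorμ_tensorδ_assoc, ← comp_whiskerRight, hu, id_whiskerRight]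

/-- The exchange as a morphism. -/
abbrev sm (X : C) (N i : ℕ) : tp X N ⟶ tp X N := sg X N i

lemma zip_sg (A B : C) (N i : ℕ) : sm (A ⊗ B) N i ≫ zip A B N =
    zip A B N ≫ (sm A N i ⊗ₘ sm B N i) := by
  induction N with
  | zero =>
    have h1 : ∀ X : C, sm X 0 i = 𝟙 _ := fun X => rfl
    rw [h1, h1, h1, id_tensorHom_id, Category.id_comp, Category.comp_id]
  | succ N ih =>
    rcases N with - | N
    · have h1 : ∀ X : C, sm X 1 i = 𝟙 _ := fun X => rfl
      rw [h1, h1, h1, id_tensorHom_id, Category.id_comp, Category.comp_id]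
    · by_cases h : i = N
      · subst h
        have h1 : ∀ X : C, sm X (i + 2) i = sw (tp X i) X := fun X => sg_last X i
        rw [h1, h1, h1, zip_succ, zip_succ, comp_whiskerRight]
        simp only [Category.assoc]
        rw [← sw_mu, reassoc_of% (sw_nat_left (X := A ⊗ B) (zip A B i))]
      · have h1 : ∀ X : C, sm X (N + 2) i = sm X (N + 1) i ▷ X := fun X => sg_lift X N i h
        rw [h1, h1, h1, zip_succ, ← comp_whiskerRight_assoc, ih, comp_whiskerRight_assoc,
          tensorμ_natural_left, Category.assoc]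

end

end Pool.Agent.K3h63.PD
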