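import Pool.Agent.K3h63.PD.Cox

/-!
# Ideals containing a symmetrizer and an antisymmetrizer
-/

set_option autoImplicit false
set_option linter.unusedSectionVars false

namespace Pool.Agent.K3h63.PD

section

variable {R : Type*} [Ring R] [Algebra ℚ R]

/-- The subspace `J` is stable under multiplication by the generators. -/
structure IsId (s : ℕ → R) (n : ℕ) (J : Submodule ℚ R) : Prop where
  left : ∀ i, i < n → ∀ x ∈ J, s i * x ∈ J
  right : ∀ i, i < n → ∀ x ∈ J, x * s i ∈ J

variable {s : ℕ → R} {n : ℕ} {J : Submodule ℚ R}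

lemma IsId.mono (h : IsId s n J) {m : ℕ} (hm : m ≤ n) : IsId s m J where
  left i hi := h.left i (by omega)
  right i hi := h.right i (by omega)

lemma IsId.shift (h : IsId s n J) (k m : ℕ) (hm : k + m ≤ n) : IsId (sh k s) m J where
  left i hi := h.left (k + i) (by omega)
  right i hi := h.right (k + i) (by omega)

lemma IsId.sy_mul (h : IsId s n J) (η : ℚ) (m : ℕ) (hm : m ≤ n + 1) :
    ∀ x ∈ J, sy η s m * x ∈ J := by
  induction m with
  | zero => intro x hx; simpa [sy_zero] using hx
  | succ m ih =>
    rcases m with - | m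
    · intro x hx; simpa [sy_one] using hx
    · intro x hx
      have h1 := ih (by omega)
      rw [sy_succ, smul_mul_assoc, add_mul, smul_mul_assoc, mul_assoc, mul_assoc]
      exact J.smul_mem _ (J.add_mem (h1 x hx)
        (J.smul_mem _ (h1 _ (h.left m (by omega) _ (h1 x hx)))))

lemma IsId.mul_sy (h : IsId s n J) (η : ℚ) (m : ℕ) (hm : m ≤ n + 1) :
    ∀ x ∈ J, x * sy η s m ∈ J := by
  induction m with
  | zero => intro x hx; simpa [sy_zero] using hx
  | succ m ih =>
    rcases m with - | m
    · intro x hx; simpa [sy_one] using hx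
    · intro x hx
      have h1 := ih (by omega)
      rw [sy_succ, mul_smul_comm, mul_add, mul_smul_comm, ← mul_assoc, ← mul_assoc]
      exact J.smul_mem _ (J.add_mem (h1 x hx)
        (J.smul_mem _ (h1 _ (h.right m (by omega) _ (h1 x hx)))))

lemma IsId.wd_mul (h : IsId s n J) (k : ℕ) (hk : k ≤ n) : ∀ x ∈ J, wd s k * x ∈ J := by
  induction k with
  | zero => intro x hx; simpa [wd] using hx
  | succ k ih =>
    intro x hx
    rw [wd, mul_assoc]
    exact ih (by omega) _ (h.left k (by omega) x hx)

lemma IsId.of_mul_wd (hC : Cox s n) (h : IsId s n J) (k : ℕ) (hk : k ≤ n) :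
    ∀ x, x * wd s k ∈ J → x ∈ J := by
  induction k with
  | zero => intro x hx; simpa [wd] using hx
  | succ k ih =>
    intro x hx
    apply ih (by omega) x
    have h1 := h.right k (by omega) _ hx
    rw [wd, mul_assoc, mul_assoc, hC.sq k (by omega), mul_one] at h1
    exact h1

/-- The ideal contains the symmetrizers of all intervals of the same length. -/
lemma IsId.sy_shift (η : ℚ) (m : ℕ) (k : ℕ) : ∀ (s : ℕ → R) (n : ℕ), Cox s n → IsId s n J →
    m + k ≤ n → sy η s m ∈ J → sy η (sh k s) m ∈ J := by
  induction k with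
  | zero => intro s n _ _ _ h; rwa [sh_zero]
  | succ k ih =>
    intro s n hC h hn hm
    have h1 : sy η (sh 1 s) m ∈ J := by
      apply h.of_mul_wd hC m (by omega)
      rw [← wd_sy hC m (by omega) m le_rfl]
      exact h.wd_mul m (by omega) _ hm
    have h2 := ih (sh 1 s) (n - 1) (hC.shift 1 _ (by omega)) (h.shift 1 _ (by omega)) (by omega) h1
    rwa [sh_sh, add_comm 1 k] at h2

end

universe w

/-- An ideal which contains a symmetrizer and an antisymmetrizer contains the unit if the number of
letters is large. -/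
theorem big {η : ℚ} (hη : η * η = 1) : ∀ a b : ℕ, ∃ N : ℕ, ∀ (R : Type w) [Ring R]
    [Algebra ℚ R] (n : ℕ), N ≤ n → ∀ (s : ℕ → R) (J : Submodule ℚ R), Cox s n → IsId s n J →
    sy η s (a + 1) ∈ J → sy (-η) s (b + 1) ∈ J → (1 : R) ∈ J := by
  intro a
  induction a with
  | zero => exact fun b => ⟨0, fun R _ _ n _ s J _ _ h _ => h⟩
  | succ a iha =>
    intro b
    induction b with
    | zero => exact ⟨0, fun R _ _ n _ s J _ _ _ h => h⟩
    | succ b ihb =>
      obtain ⟨N1, h1⟩ := ihb
      obtain ⟨N2, h2⟩ := iha (b + 1)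
      refine ⟨N1 + N2 + 2 * a + 2 * b + 5, fun R _ _ n hn s J hC hJ ha hb => ?_⟩
      have hη' : (-η) * (-η) = 1 := by linear_combination hη
      -- the middle generator
      have hT : Cox (sh (a + 1) s) (b + 1) := hC.shift _ _ (by omega)
      set S := sy η s (a + 1) with hS
      set T := sy (-η) (sh (a + 1) s) (b + 1) with hTd
      have hST : S * T = T * S := by
        rw [hTd]
        apply sy_comm
        intro j hj
        rw [hS]
        exact (sy_comm (sh (a + 1) s j) (a + 1) fun i hi =>
          (hC.cm i (a + 1 + j) (by omega) (by omega)).symm).symm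
      have hTT : T * T = T := sy_idem hη' (b + 1) (hT.mono (by omega))
      have hJT : ∀ x ∈ J, T * x ∈ J :=
        (hJ.shift (a + 1) (b + 1) (by omega)).sy_mul (-η) (b + 1) (by omega)
      have hJT' : ∀ x ∈ J, x * T ∈ J :=
        (hJ.shift (a + 1) (b + 1) (by omega)).mul_sy (-η) (b + 1) (by omega)
      have hJS : ∀ x ∈ J, S * x ∈ J := hJ.sy_mul η (a + 1) (by omega)
      have hJS' : ∀ x ∈ J, x * S ∈ J := hJ.mul_sy η (a + 1) (by omega)
      have hSS : S * S = S := sy_idem hη (a + 1) (hC.mono (by omega))
      have ha' : ((a + 1 : ℕ) : ℚ) + 1 ≠ 0 := by positivity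
      have hb' : ((b + 1 : ℕ) : ℚ) + 1 ≠ 0 := by positivity
      set y := S * T * s a * (S * T) with hy
      have k1 : S * T + (η * ((a + 1 : ℕ) : ℚ)) • y ∈ J := by
        rw [sy_succ, ← hS] at ha
        have e1 := J.smul_mem (((a + 1 : ℕ) : ℚ) + 1) ha
        rw [smul_smul, mul_inv_cancel₀ ha', one_smul] at e1
        have e2 := hJT _ (hJT' _ e1)
        have e3 : T * ((S + (η * ((a + 1 : ℕ) : ℚ)) • (S * s a * S)) * T) =
            S * T + (η * ((a + 1 : ℕ) : ℚ)) • y := by
          rw [add_mul, mul_add, smul_mul_assoc, mul_smul_comm]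
          congr 1
          · rw [← mul_assoc, ← hST, mul_assoc, hTT]
          · congr 1
            rw [hy]
            calc T * (S * s a * S * T) = (T * S) * s a * (S * T) := by simp only [mul_assoc]
              _ = _ := by rw [← hST]
        rwa [e3] at e2
      have k2 : S * T - (η * ((b + 1 : ℕ) : ℚ)) • y ∈ J := by
        have e0 := IsId.sy_shift (-η) (b + 1 + 1) a s n hC hJ (by omega) hb
        rw [sy_left hη' b (hC.shift a _ (by omega)), sh_sh] at e0
        have e1 := J.smul_mem (((b + 1 : ℕ) : ℚ) + 1) e0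
        rw [smul_smul, mul_inv_cancel₀ hb', one_smul, ← hTd] at e1
        have e2 := hJS _ (hJS' _ e1)
        have e3 : S * ((T + (-η * ((b + 1 : ℕ) : ℚ)) • (T * sh a s 0 * T)) * S) =
            S * T - (η * ((b + 1 : ℕ) : ℚ)) • y := by
          rw [add_mul, mul_add, smul_mul_assoc, mul_smul_comm, neg_mul, neg_smul, ← sub_eq_add_neg]
          congr 1
          · rw [← hST, ← mul_assoc, hSS]
          · congr 1
            rw [hy]
            have e4 : sh a s 0 = s a := rfl
            rw [e4]
            calc S * (T * s a * T * S) = (S * T) * s a * (T * S) := by simp only [mul_assoc]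
              _ = _ := by rw [← hST]
        rwa [e3] at e2
      have k3 : S * T ∈ J := by
        have e1 := J.add_mem (J.smul_mem ((b + 1 : ℕ) : ℚ) k1) (J.smul_mem ((a + 1 : ℕ) : ℚ) k2)
        have e2 : ((b + 1 : ℕ) : ℚ) • (S * T + (η * ((a + 1 : ℕ) : ℚ)) • y) +
            ((a + 1 : ℕ) : ℚ) • (S * T - (η * ((b + 1 : ℕ) : ℚ)) • y) =
            (((a + 1 : ℕ) : ℚ) + ((b + 1 : ℕ) : ℚ)) • (S * T) := by module
        rw [e2] at e1
        have e3 := J.smul_mem (((a + 1 : ℕ) : ℚ) + ((b + 1 : ℕ) : ℚ))⁻¹ e1
        have e4 : ((a + 1 : ℕ) : ℚ) + ((b + 1 : ℕ) : ℚ) ≠ 0 := by positivity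
        rwa [smul_smul, inv_mul_cancel₀ e4, one_smul] at e3
      -- the ideal on the remaining letters
      have hcom : ∀ i, a + 1 + i < n → S * sh (a + 1) s i = sh (a + 1) s i * S := by
        intro i hi
        exact (sy_comm (sh (a + 1) s i) (a + 1) fun j hj =>
          (hC.cm j (a + 1 + i) (by omega) (by omega)).symm).symm
      have k4 : (1 : R) ∈ J.comap (LinearMap.mulLeft ℚ S) := by
        apply h1 R (n - (a + 1)) (by omega) (sh (a + 1) s) (J.comap (LinearMap.mulLeft ℚ S))
          (hC.shift _ _ (by omega))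
        · constructor
          · intro i hi x hx
            rw [Submodule.mem_comap, LinearMap.mulLeft_apply] at hx ⊢
            rw [← mul_assoc, hcom i (by omega), mul_assoc]
            exact hJ.left (a + 1 + i) (by omega) _ hx
          · intro i hi x hx
            rw [Submodule.mem_comap, LinearMap.mulLeft_apply] at hx ⊢
            rw [← mul_assoc]
            exact hJ.right (a + 1 + i) (by omega) _ hx
        · rw [Submodule.mem_comap, LinearMap.mulLeft_apply]
          exact hJS _ (IsId.sy_shift η (a + 1 + 1) (a + 1) s n hC hJ (by omega) ha)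
        · rw [Submodule.mem_comap, LinearMap.mulLeft_apply]
          exact k3
      rw [Submodule.mem_comap, LinearMap.mulLeft_apply, mul_one] at k4
      exact h2 R n (by omega) s J hC hJ k4 hb

end Pool.Agent.K3h63.PD
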